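import Mathlib

/-!
Two lemmas on short chains of subspaces cut by five linear functionals over a field with four
elements.
-/

namespace Pool.Agent.Lib.MP_de7d88_co

open Module

variable {F V ι : Type*} [Field F] [AddCommGroup V] [Module F V] [FiniteDimensional F V]

/-- common kernel of the functionals `φ i`, `i ∈ T` -/
def Z (φ : ι → V →ₗ[F] F) (T : Set ι) : Submodule F V where
  carrier := {v | ∀ i ∈ T, φ i v = 0}
  add_mem' := by
    intro a b ha hb i hi
    simp [ha i hi, hb i hi]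
  zero_mem' := by intro i _; simp
  smul_mem' := by
    intro c x hx i hi
    simp [hx i hi]

omit [FiniteDimensional F V] in
lemma mem_Z {φ : ι → V →ₗ[F] F} {T : Set ι} {v : V} : v ∈ Z φ T ↔ ∀ i ∈ T, φ i v = 0 := Iff.rfl

omit [FiniteDimensional F V] in
lemma Z_anti {φ : ι → V →ₗ[F] F} {T T' : Set ι} (h : T ⊆ T') : Z φ T' ≤ Z φ T :=
  fun _ hv i hi => hv i (h hi)

omit [FiniteDimensional F V] in
lemma inf_Z_pair (φ : ι → V →ₗ[F] F) (i j : ι) (P : Submodule F V) :
    P ⊓ Z φ {i, j} = P ⊓ Z φ {i} ⊓ Z φ {j} := by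
  ext v
  simp only [Submodule.mem_inf, mem_Z, Set.mem_insert_iff, Set.mem_singleton_iff,
    forall_eq_or_imp, forall_eq]
  tauto

omit [FiniteDimensional F V] in
lemma inf_Z_triple (φ : ι → V →ₗ[F] F) (i j k : ι) (P : Submodule F V) :
    P ⊓ Z φ {i, j, k} = P ⊓ Z φ {i, j} ⊓ Z φ {k} := by
  ext v
  simp only [Submodule.mem_inf, mem_Z, Set.mem_insert_iff, Set.mem_singleton_iff,
    forall_eq_or_imp, forall_eq]
  tauto

lemma finrank_cut_one (P : Submodule F V) (f : V →ₗ[F] F) :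
    finrank F P ≤ finrank F ↥(P ⊓ LinearMap.ker f) + 1 := by
  have h := LinearMap.finrank_range_add_finrank_ker (f.domRestrict P)
  have h1 : finrank F (LinearMap.range (f.domRestrict P)) ≤ 1 := by
    have := Submodule.finrank_le (LinearMap.range (f.domRestrict P))
    simpa using this
  have h2 : finrank F (LinearMap.ker (f.domRestrict P)) = finrank F ↥(P ⊓ LinearMap.ker f) := by
    have e : (LinearMap.ker (f.domRestrict P)).map P.subtype = P ⊓ LinearMap.ker f := by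
      ext v
      simp [Submodule.mem_map, LinearMap.mem_ker, and_comm]
    rw [← e]
    exact (LinearEquiv.finrank_eq (Submodule.equivMapOfInjective _ P.injective_subtype _))
  omega

lemma cut (P : Submodule F V) (φ : ι → V →ₗ[F] F) (i : ι) :
    finrank F P ≤ finrank F ↥(P ⊓ Z φ {i}) + 1 := by
  have h := finrank_cut_one P (φ i)
  have e : P ⊓ LinearMap.ker (φ i) = P ⊓ Z φ {i} := by
    ext v
    simp [Submodule.mem_inf, mem_Z, LinearMap.mem_ker]
  rwa [e] at h

lemma cut_lt (P : Submodule F V) (φ : ι → V →ₗ[F] F) (i : ι) (h : ¬ P ≤ Z φ {i}) :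
    finrank F ↥(P ⊓ Z φ {i}) < finrank F P := by
  apply Submodule.finrank_lt_finrank_of_lt
  exact inf_lt_left.mpr h

lemma rk_mono {P Q : Submodule F V} (h : P ≤ Q) : finrank F P ≤ finrank F Q :=
  Submodule.finrank_mono h

lemma le_Z_of_finrank {P : Submodule F V} {φ : ι → V →ₗ[F] F} {T : Set ι}
    (h : finrank F P ≤ finrank F ↥(P ⊓ Z φ T)) : P ≤ Z φ T := by
  have := Submodule.eq_of_le_of_finrank_le (inf_le_left : P ⊓ Z φ T ≤ P) h
  rw [← this]; exact inf_le_right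

omit [FiniteDimensional F V] in
lemma exists_not_le {P : Submodule F V} {φ : ι → V →ₗ[F] F} {D : Set ι}
    (hP : P ⊓ Z φ D = ⊥) (h0 : 0 < finrank F P) : ∃ i ∈ D, ¬ P ≤ Z φ {i} := by
  by_contra hcon
  push Not at hcon
  have : P ≤ Z φ D := by
    intro v hv i hi
    exact hcon i hi hv i rfl
  have h2 : P = ⊥ := by
    rw [← hP]; exact (inf_eq_left.mpr this).symm
  rw [h2] at h0
  simp at h0

lemma exists_pair {P : Submodule F V} {φ : ι → V →ₗ[F] F} {D : Set ι}
    (hP : P ⊓ Z φ D = ⊥) (h0 : finrank F P = 2) :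
    ∃ i ∈ D, ∃ j ∈ D, i ≠ j ∧ finrank F ↥(P ⊓ Z φ {i, j}) = 0 := by
  obtain ⟨i, hi, hiP⟩ := exists_not_le hP (by omega)
  have h1 := cut_lt P φ i hiP
  have h1' := cut P φ i
  have hP' : (P ⊓ Z φ {i}) ⊓ Z φ D = ⊥ := by
    rw [eq_bot_iff, ← hP]
    exact inf_le_inf_right _ inf_le_left
  obtain ⟨j, hj, hjP⟩ := exists_not_le hP' (by omega)
  have h2 := cut_lt _ φ j hjP
  refine ⟨i, hi, j, hj, ?_, ?_⟩
  · rintro rfl
    exact hjP inf_le_right
  · rw [inf_Z_pair]; omega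

lemma exists_triple {P : Submodule F V} {φ : ι → V →ₗ[F] F} {D : Set ι}
    (hP : P ⊓ Z φ D = ⊥) (h0 : finrank F P = 3) :
    ∃ i ∈ D, ∃ j ∈ D, ∃ k ∈ D, i ≠ j ∧ i ≠ k ∧ j ≠ k ∧ finrank F ↥(P ⊓ Z φ {i, j, k}) = 0 := by
  obtain ⟨i, hi, hiP⟩ := exists_not_le hP (by omega)
  have h1 := cut_lt P φ i hiP
  have h1' := cut P φ i
  have hP' : (P ⊓ Z φ {i}) ⊓ Z φ D = ⊥ := by
    rw [eq_bot_iff, ← hP]
    exact inf_le_inf_right _ inf_le_left
  obtain ⟨j, hj, k, hk, hjk, hz⟩ := exists_pair hP' (by omega)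
  refine ⟨i, hi, j, hj, k, hk, ?_, ?_, hjk, ?_⟩
  · rintro rfl
    have : P ⊓ Z φ {i} ⊓ Z φ {i, k} = P ⊓ Z φ {i} ⊓ Z φ {k} := by
      rw [inf_Z_pair]; congr 1; rw [inf_assoc, inf_idem]
    rw [this] at hz
    have := cut (P ⊓ Z φ {i}) φ k
    omega
  · rintro rfl
    have : P ⊓ Z φ {i} ⊓ Z φ {j, i} = P ⊓ Z φ {i} ⊓ Z φ {j} := by
      rw [inf_Z_pair]
      apply le_antisymm
      · exact inf_le_left
      · refine le_inf le_rfl ?_
        exact (inf_le_left.trans inf_le_right)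
    rw [this] at hz
    have := cut (P ⊓ Z φ {i}) φ j
    omega
  · have : P ⊓ Z φ {i} ⊓ Z φ {j, k} = P ⊓ Z φ {i, j, k} := by
      rw [inf_Z_triple, inf_Z_pair, inf_Z_pair]
    rw [← this]; exact hz

variable [Fintype F]

omit [FiniteDimensional F V] in
lemma pigeon (hF : Fintype.card F = 4) {φ : ι → V →ₗ[F] F} {D : Finset ι} (hD : D.card = 5)
    (b c : V) (hb : ∀ i ∈ D, φ i b ≠ 0) :
    ∃ i ∈ D, ∃ j ∈ D, i ≠ j ∧ ∃ t : F, φ i (c - t • b) = 0 ∧ φ j (c - t • b) = 0 := by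
  classical
  have hlt : (Finset.univ : Finset F).card < D.card := by
    rw [Finset.card_univ, hF, hD]; norm_num
  obtain ⟨i, hi, j, hj, hij, he⟩ := Finset.exists_ne_map_eq_of_card_lt_of_maps_to hlt
    (f := fun i => φ i c / φ i b) (fun i _ => Finset.mem_univ _)
  refine ⟨i, hi, j, hj, hij, φ i c / φ i b, ?_, ?_⟩
  · have := hb i hi
    simp only [map_sub, map_smul, smul_eq_mul]
    field_simp
    ring
  · have := hb j hj
    have he' : φ i c / φ i b = φ j c / φ j b := he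
    rw [he']
    simp only [map_sub, map_smul, smul_eq_mul]
    field_simp
    ring

lemma final_step (hF : Fintype.card F = 4) {φ : ι → V →ₗ[F] F} {D : Finset ι} (hD : D.card = 5)
    {K1 K2 : Submodule F V} (h12 : K1 ≤ K2) (h1 : finrank F K1 = 1) (h2 : finrank F K2 = 2)
    (hA : ∀ i ∈ D, ¬ K1 ≤ Z φ {i})
    (hB : ∀ i ∈ D, ∀ j ∈ D, i ≠ j → finrank F ↥(K2 ⊓ Z φ {i, j}) = 0) : False := by
  have hne : K1 ≠ ⊥ := by
    rintro rfl; simp at h1
  obtain ⟨b, hbK, hb0⟩ := Submodule.exists_mem_ne_zero_of_ne_bot hne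
  have hlt : K1 < K2 := by
    refine lt_of_le_of_ne h12 ?_
    rintro rfl; omega
  obtain ⟨c, hcK, hc⟩ := SetLike.exists_of_lt hlt
  have hb : ∀ i ∈ D, φ i b ≠ 0 := by
    intro i hi h0
    have h3 := cut_lt K1 φ i (hA i hi)
    have h4 : finrank F ↥(K1 ⊓ Z φ {i}) = 0 := by omega
    rw [Submodule.finrank_eq_zero] at h4
    have : b ∈ K1 ⊓ Z φ {i} := ⟨hbK, by
      intro k hk
      rw [Set.mem_singleton_iff] at hk
      rw [hk]; exact h0⟩
    rw [h4] at this
    exact hb0 ((Submodule.mem_bot F).mp this)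
  obtain ⟨i, hi, j, hj, hij, t, hti, htj⟩ := pigeon hF hD b c hb
  have h5 := hB i hi j hj hij
  rw [Submodule.finrank_eq_zero] at h5
  have h6 : c - t • b ∈ K2 ⊓ Z φ {i, j} := by
    refine ⟨K2.sub_mem hcK (K2.smul_mem t (h12 hbK)), ?_⟩
    intro k hk
    rcases hk with rfl | hk
    · exact hti
    · rw [Set.mem_singleton_iff] at hk
      rw [hk]; exact htj
  rw [h5] at h6
  have h7 := (Submodule.mem_bot F).mp h6
  apply hc
  have : c = t • b := sub_eq_zero.mp h7
  rw [this]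
  exact K1.smul_mem t hbK

lemma exists_other {D : Finset ι} (hD : D.card = 5) (i : ι) : ∃ j ∈ D, j ≠ i := by
  classical
  have : 0 < (D.erase i).card := by
    have := Finset.pred_card_le_card_erase (s := D) (a := i)
    omega
  obtain ⟨j, hj⟩ := Finset.card_pos.mp this
  exact ⟨j, Finset.mem_of_mem_erase hj, Finset.ne_of_mem_erase hj⟩

lemma exists_other2 {D : Finset ι} (hD : D.card = 5) (i j : ι) : ∃ k ∈ D, k ≠ i ∧ k ≠ j := by
  classical
  have : 0 < ((D.erase i).erase j).card := by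
    have h1 := Finset.pred_card_le_card_erase (s := D) (a := i)
    have h2 := Finset.pred_card_le_card_erase (s := D.erase i) (a := j)
    omega
  obtain ⟨k, hk⟩ := Finset.card_pos.mp this
  rw [Finset.mem_erase, Finset.mem_erase] at hk
  exact ⟨k, hk.2.2, hk.2.1, hk.1⟩

theorem W0 (hF : Fintype.card F = 4) {φ : ι → V →ₗ[F] F} {D : Finset ι} (hD : D.card = 5)
    {K0 K1 K2 : Submodule F V} (h01 : K0 ≤ K1) (h12 : K1 ≤ K2)
    (hk1 : 1 ≤ finrank F K1) (hk2 : 2 ≤ finrank F K2)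
    (hg1 : finrank F K1 ≤ finrank F K0 + 1) (hg2 : finrank F K2 ≤ finrank F K1 + 1)
    (htriv : K2 ⊓ Z φ (D : Set ι) = ⊥)
    (hi : finrank F K0 = 0 ∨ (finrank F K0 = 1 ∧ finrank F K1 = 2))
    (hii : ∀ i ∈ D, ¬ (finrank F ↥(K0 ⊓ Z φ {i}) = 0 ∧ finrank F ↥(K1 ⊓ Z φ {i}) = 1 ∧
      finrank F ↥(K2 ⊓ Z φ {i}) = 1))
    (hiii : ∀ i ∈ D, ∀ j ∈ D, i ≠ j → finrank F ↥(K2 ⊓ Z φ {i, j}) = 0 ∨
      (finrank F ↥(K2 ⊓ Z φ {i, j}) = 1 ∧ finrank F ↥(K1 ⊓ Z φ {i, j}) = 1)) : False := by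
  rcases hi with h0 | ⟨h0, h1⟩
  · have h1 : finrank F K1 = 1 := by omega
    have h2 : finrank F K2 = 2 := by omega
    have c1 : ∀ i ∈ D, K1 ≤ Z φ {i} → K2 ≤ Z φ {i} := by
      intro i hi hK
      have a1 : finrank F ↥(K0 ⊓ Z φ {i}) = 0 := by
        have := rk_mono (F := F) (inf_le_left : K0 ⊓ Z φ {i} ≤ K0)
        omega
      have a2 : finrank F ↥(K1 ⊓ Z φ {i}) = 1 := by
        rw [inf_eq_left.mpr hK]; exact h1
      have a3 := hii i hi
      have a4 := cut K2 φ i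
      apply le_Z_of_finrank
      have a5 : finrank F ↥(K2 ⊓ Z φ {i}) ≠ 1 := fun h => a3 ⟨a1, a2, h⟩
      omega
    have c2 : ∀ i ∈ D, ¬ K1 ≤ Z φ {i} := by
      intro i hi hK
      have hK2 := c1 i hi hK
      obtain ⟨j, hj, hji⟩ := exists_other hD i
      have b1 : K2 ⊓ Z φ {i, j} = K2 ⊓ Z φ {j} := by
        rw [inf_Z_pair, inf_eq_left.mpr hK2]
      have b2 := cut K2 φ j
      rw [← b1] at b2
      rcases hiii i hi j hj hji.symm with h3 | ⟨h3, h4⟩
      · omega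
      · have b3 : K1 ≤ Z φ {i, j} := le_Z_of_finrank (by omega)
        have b4 : K1 ≤ Z φ {j} := b3.trans (Z_anti (by simp))
        have b5 := c1 j hj b4
        rw [b1, inf_eq_left.mpr b5] at h3
        omega
    refine final_step hF hD h12 h1 h2 c2 ?_
    intro i hi j hj hij
    rcases hiii i hi j hj hij with h3 | ⟨h3, h4⟩
    · exact h3
    · exfalso
      have b3 : K1 ≤ Z φ {i, j} := le_Z_of_finrank (by omega)
      exact c2 i hi (b3.trans (Z_anti (by simp)))
  · have hle : finrank F K1 ≤ finrank F K2 := rk_mono h12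
    have t1 : K1 ⊓ Z φ (D : Set ι) = ⊥ := by
      rw [eq_bot_iff, ← htriv]; exact inf_le_inf_right _ h12
    have t0 : K0 ⊓ Z φ (D : Set ι) = ⊥ := by
      rw [eq_bot_iff, ← t1]; exact inf_le_inf_right _ h01
    have : finrank F K2 = 3 ∨ finrank F K2 = 2 := by omega
    rcases this with h2 | h2
    · obtain ⟨i, hi, j, hj, hij, hz⟩ := exists_pair t1 h1
      have d1 := cut K2 φ i
      have d2 := cut (K2 ⊓ Z φ {i}) φ j
      rw [← inf_Z_pair] at d2
      rcases hiii i hi j hj hij with h3 | ⟨h3, h4⟩ <;> omega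
    · have he : K1 = K2 := Submodule.eq_of_le_of_finrank_eq h12 (by omega)
      obtain ⟨i, hi, hiP⟩ := exists_not_le t0 (by omega)
      have d0 := cut_lt K0 φ i hiP
      have d1 := cut K1 φ i
      have d2 := cut_lt K1 φ i (fun h => hiP (h01.trans h))
      subst he
      exact hii i hi ⟨by omega, by omega, by omega⟩

theorem W1 (hF : Fintype.card F = 4) {φ : ι → V →ₗ[F] F} {D : Finset ι} (hD : D.card = 5)
    {K1 K2 K3 : Submodule F V} (h12 : K1 ≤ K2) (h23 : K2 ≤ K3)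
    (hk1 : 1 ≤ finrank F K1) (hk2 : 2 ≤ finrank F K2) (hk3 : 3 ≤ finrank F K3)
    (hg1 : finrank F K2 ≤ finrank F K1 + 1) (hg2 : finrank F K3 ≤ finrank F K2 + 1)
    (htriv : K3 ⊓ Z φ (D : Set ι) = ⊥)
    (hi : ∀ i ∈ D, finrank F ↥(K1 ⊓ Z φ {i}) = 0 ∨
      (finrank F ↥(K1 ⊓ Z φ {i}) = 1 ∧ finrank F ↥(K2 ⊓ Z φ {i}) = 2))
    (hii : ∀ i ∈ D, ∀ j ∈ D, i ≠ j → ¬ (finrank F ↥(K1 ⊓ Z φ {i, j}) = 0 ∧
      finrank F ↥(K2 ⊓ Z φ {i, j}) = 1 ∧ finrank F ↥(K3 ⊓ Z φ {i, j}) = 1))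
    (hiii : ∀ i ∈ D, ∀ j ∈ D, ∀ k ∈ D, i ≠ j → i ≠ k → j ≠ k →
      finrank F ↥(K3 ⊓ Z φ {i, j, k}) = 0 ∨
      (finrank F ↥(K3 ⊓ Z φ {i, j, k}) = 1 ∧ finrank F ↥(K2 ⊓ Z φ {i, j, k}) = 1)) : False := by
  have hDne : D.Nonempty := by rw [← Finset.card_pos]; omega
  obtain ⟨i₀, hi₀⟩ := hDne
  have hk1' : finrank F K1 = 1 ∨ finrank F K1 = 2 := by
    have := cut K1 φ i₀
    rcases hi i₀ hi₀ with h | ⟨h, _⟩ <;> omega
  rcases hk1' with h1 | h1
  · have h2 : finrank F K2 = 2 := by omega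
    have h3 : finrank F K3 = 3 := by omega
    have a1 : ∀ i ∈ D, K1 ≤ Z φ {i} → K2 ≤ Z φ {i} := by
      intro i hiD hK
      have : finrank F ↥(K1 ⊓ Z φ {i}) = 1 := by
        rw [inf_eq_left.mpr hK]; exact h1
      rcases hi i hiD with h | ⟨_, h⟩
      · omega
      · exact le_Z_of_finrank (by omega)
    have key : ∀ p ∈ D, ∀ r ∈ D, ∀ s ∈ D, p ≠ r → p ≠ s → ¬ K1 ≤ Z φ {p} →
        finrank F ↥(K3 ⊓ Z φ {p, r, s}) = 1 → finrank F ↥(K2 ⊓ Z φ {p, r, s}) = 1 → False := by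
      intro p hp r hr s hs hpr hps hnp g3 g2
      have e1 : finrank F ↥(K1 ⊓ Z φ {p}) = 0 := by
        have := cut_lt K1 φ p hnp; omega
      have e2 : finrank F ↥(K2 ⊓ Z φ {p}) = 1 := by
        have := cut_lt K2 φ p (fun h => hnp (h12.trans h))
        have := cut K2 φ p; omega
      have e3 : finrank F ↥(K3 ⊓ Z φ {p}) = 2 := by
        have := cut_lt K3 φ p (fun h => hnp ((h12.trans h23).trans h))
        have := cut K3 φ p; omega
      have main : ∀ t ∈ D, p ≠ t → ({p, t} : Set ι) ⊆ {p, r, s} →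
          K3 ⊓ Z φ {p} ≤ Z φ {t} := by
        intro t ht hpt hsub
        have f1 : finrank F ↥(K2 ⊓ Z φ {p, t}) = 1 := by
          have u1 := rk_mono (F := F) (inf_le_inf_left K2 (Z_anti (φ := φ) hsub))
          have u2 := rk_mono (F := F) (inf_le_inf_left K2
            (Z_anti (φ := φ) (show ({p} : Set ι) ⊆ {p, t} by simp)))
          omega
        have f2 : finrank F ↥(K1 ⊓ Z φ {p, t}) = 0 := by
          have u2 := rk_mono (F := F) (inf_le_inf_left K1
            (Z_anti (φ := φ) (show ({p} : Set ι) ⊆ {p, t} by simp)))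
          omega
        have f3 : finrank F ↥(K3 ⊓ Z φ {p, t}) ≠ 1 := fun h => hii p hp t ht hpt ⟨f2, f1, h⟩
        have f4 := cut (K3 ⊓ Z φ {p}) φ t
        apply le_Z_of_finrank
        rw [inf_Z_pair] at f3
        omega
      have m1 := main r hr hpr (by intro x hx; simp at hx ⊢; tauto)
      have m2 := main s hs hps (by intro x hx; simp at hx ⊢; tauto)
      have e : K3 ⊓ Z φ {p, r, s} = K3 ⊓ Z φ {p} := by
        rw [inf_Z_triple, inf_Z_pair, inf_eq_left.mpr m1, inf_eq_left.mpr m2]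
      rw [e] at g3
      omega
    have a2 : ∀ i ∈ D, ∀ j ∈ D, ∀ k ∈ D, i ≠ j → i ≠ k → j ≠ k →
        finrank F ↥(K3 ⊓ Z φ {i, j, k}) = 0 := by
      intro i hiD j hjD k hkD hij hik hjk
      rcases hiii i hiD j hjD k hkD hij hik hjk with h | ⟨g3, g2⟩
      · exact h
      · exfalso
        by_cases hni : K1 ≤ Z φ {i}
        · by_cases hnj : K1 ≤ Z φ {j}
          · by_cases hnk : K1 ≤ Z φ {k}
            · have u1 := a1 i hiD hni
              have u2 := a1 j hjD hnj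
              have u3 := a1 k hkD hnk
              rw [inf_Z_triple, inf_Z_pair, inf_eq_left.mpr u1, inf_eq_left.mpr u2,
                inf_eq_left.mpr u3] at g2
              omega
            · have es : ({i, j, k} : Set ι) = {k, i, j} := by ext x; simp; tauto
              rw [es] at g3 g2
              exact key k hkD i hiD j hjD hik.symm hjk.symm hnk g3 g2
          · have es : ({i, j, k} : Set ι) = {j, i, k} := by ext x; simp; tauto
            rw [es] at g3 g2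
            exact key j hjD i hiD k hkD hij.symm hjk hnj g3 g2
        · exact key i hiD j hjD k hkD hij hik hni g3 g2
    have a3 : ∀ i ∈ D, ∀ j ∈ D, i ≠ j → finrank F ↥(K3 ⊓ Z φ {i, j}) ≤ 1 := by
      intro i hiD j hjD hij
      obtain ⟨k, hk, hki, hkj⟩ := exists_other2 hD i j
      have u := cut (K3 ⊓ Z φ {i, j}) φ k
      rw [← inf_Z_triple, a2 i hiD j hjD k hk hij hki.symm hkj.symm] at u
      exact u
    have a4 : ∀ i ∈ D, ¬ K1 ≤ Z φ {i} := by
      intro i hiD hK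
      have hK2 := a1 i hiD hK
      obtain ⟨j, hj, hji⟩ := exists_other hD i
      have b1 : K2 ⊓ Z φ {i, j} = K2 ⊓ Z φ {j} := by
        rw [inf_Z_pair, inf_eq_left.mpr hK2]
      have u3 := a3 i hiD j hj hji.symm
      have u2 := rk_mono (F := F) (inf_le_inf_right (Z φ {i, j}) h23)
      by_cases hKj : K1 ≤ Z φ {j}
      · have hK2j := a1 j hj hKj
        rw [b1, inf_eq_left.mpr hK2j] at u2
        omega
      · have v1 : finrank F ↥(K1 ⊓ Z φ {i, j}) = 0 := by
          have w1 := cut_lt K1 φ j hKj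
          have w2 := rk_mono (F := F) (inf_le_inf_left K1
            (Z_anti (φ := φ) (show ({j} : Set ι) ⊆ {i, j} by simp)))
          omega
        have v2 : finrank F ↥(K2 ⊓ Z φ {i, j}) = 1 := by
          rw [b1]
          have w1 := cut_lt K2 φ j (fun h => hKj (h12.trans h))
          have w2 := cut K2 φ j
          omega
        exact hii i hiD j hj hji.symm ⟨v1, v2, by omega⟩
    refine final_step hF hD h12 h1 h2 a4 ?_
    intro i hiD j hjD hij
    have u3 := a3 i hiD j hjD hij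
    have u2 := rk_mono (F := F) (inf_le_inf_right (Z φ {i, j}) h23)
    have v1 : finrank F ↥(K1 ⊓ Z φ {i, j}) = 0 := by
      have w1 := cut_lt K1 φ i (a4 i hiD)
      have w2 := rk_mono (F := F) (inf_le_inf_left K1
        (Z_anti (φ := φ) (show ({i} : Set ι) ⊆ {i, j} by simp)))
      omega
    by_contra hne
    exact hii i hiD j hjD hij ⟨v1, by omega, by omega⟩
  · have t3 := htriv
    have t2 : K2 ⊓ Z φ (D : Set ι) = ⊥ := by
      rw [eq_bot_iff, ← htriv]; exact inf_le_inf_right _ h23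
    have t1 : K1 ⊓ Z φ (D : Set ι) = ⊥ := by
      rw [eq_bot_iff, ← t2]; exact inf_le_inf_right _ h12
    have b1 : ∀ i ∈ D, finrank F ↥(K1 ⊓ Z φ {i}) = 1 ∧ finrank F ↥(K2 ⊓ Z φ {i}) = 2 := by
      intro i hiD
      have := cut K1 φ i
      rcases hi i hiD with h | h
      · omega
      · exact h
    have h2 : finrank F K2 = 3 := by
      have u := rk_mono (F := F) h12
      by_contra hne
      have : finrank F K2 = 2 := by omega
      have he : K1 = K2 := Submodule.eq_of_le_of_finrank_eq h12 (by omega)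
      have v := b1 i₀ hi₀
      rw [he] at v
      omega
    have h3 : finrank F K3 = 3 ∨ finrank F K3 = 4 := by omega
    rcases h3 with h3 | h3
    · have he : K2 = K3 := Submodule.eq_of_le_of_finrank_eq h23 (by omega)
      subst he
      obtain ⟨i, hiD, j, hjD, hij, hz⟩ := exists_pair t1 h1
      have c1 : finrank F ↥(K2 ⊓ Z φ {i, j}) = 1 := by
        have w := cut (K2 ⊓ Z φ {i}) φ j
        rw [← inf_Z_pair, (b1 i hiD).2] at w
        by_contra hne
        have w2 : K2 ⊓ Z φ {i} ≤ Z φ {j} := by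
          apply le_Z_of_finrank
          rw [← inf_Z_pair, (b1 i hiD).2]
          omega
        have w3 : K1 ⊓ Z φ {i, j} = K1 ⊓ Z φ {i} := by
          rw [inf_Z_pair]
          exact inf_eq_left.mpr ((inf_le_inf_right _ h12).trans w2)
        rw [w3, (b1 i hiD).1] at hz
        omega
      exact hii i hiD j hjD hij ⟨hz, c1, c1⟩
    · obtain ⟨i, hiD, j, hjD, k, hkD, hij, hik, hjk, hz⟩ := exists_triple t2 h2
      have d1 := cut K3 φ i
      have d2 := cut (K3 ⊓ Z φ {i}) φ j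
      rw [← inf_Z_pair] at d2
      have d3 := cut (K3 ⊓ Z φ {i, j}) φ k
      rw [← inf_Z_triple] at d3
      rcases hiii i hiD j hjD k hkD hij hik hjk with h | ⟨_, h⟩ <;> omega

end Pool.Agent.Lib.MP_de7d88_co
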