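import Mathlib
import Pool.Agent.Lib.MP_de7d88_co.Linear

/-!
The deterministic part: for every matrix over a field with four elements, the set defined by the
rank pattern `inS` meets every five-dimensional subcube.
-/

namespace Pool.Agent.Lib.MP_de7d88_co

open Module

section kernels

variable {F : Type*} [Field F] {κ ι : Type*} [Fintype κ] [Fintype ι] [DecidableEq κ]
  [DecidableEq ι]

/-- vectors supported on `x` and annihilated by the rows in `a` -/
def RK (G : Matrix κ ι F) (a : Finset κ) (x : Finset ι) : Submodule F (ι → F) where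
  carrier := {v | (∀ i, i ∉ x → v i = 0) ∧ ∀ k ∈ a, ∑ i, G k i * v i = 0}
  add_mem' := by
    rintro v w ⟨hv, hv'⟩ ⟨hw, hw'⟩
    refine ⟨fun i hi => by simp [hv i hi, hw i hi], fun k hk => ?_⟩
    have : ∑ i, G k i * (v + w) i = ∑ i, G k i * v i + ∑ i, G k i * w i := by
      rw [← Finset.sum_add_distrib]
      exact Finset.sum_congr rfl (fun i _ => by simp [mul_add])
    rw [this, hv' k hk, hw' k hk, add_zero]
  zero_mem' := ⟨fun i _ => rfl, fun k _ => by simp⟩
  smul_mem' := by
    rintro c v ⟨hv, hv'⟩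
    refine ⟨fun i hi => by simp [hv i hi], fun k hk => ?_⟩
    have : ∑ i, G k i * (c • v) i = c * ∑ i, G k i * v i := by
      rw [Finset.mul_sum]
      exact Finset.sum_congr rfl (fun i _ => by simp; ring)
    rw [this, hv' k hk, mul_zero]

omit [Fintype κ] [DecidableEq κ] [DecidableEq ι] in
lemma mem_RK {G : Matrix κ ι F} {a : Finset κ} {x : Finset ι} {v : ι → F} :
    v ∈ RK G a x ↔ (∀ i, i ∉ x → v i = 0) ∧ ∀ k ∈ a, ∑ i, G k i * v i = 0 := Iff.rfl

omit [Fintype κ] [DecidableEq κ] [DecidableEq ι] in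
lemma RK_mono {G : Matrix κ ι F} {a b : Finset κ} {x y : Finset ι} (hab : b ⊆ a) (hxy : x ⊆ y) :
    RK G a x ≤ RK G b y :=
  fun _ hv => ⟨fun i hi => hv.1 i (fun h => hi (hxy h)), fun k hk => hv.2 k (hab hk)⟩

/-- extension by zero -/
def ext0 (x : Finset ι) : (x → F) →ₗ[F] (ι → F) where
  toFun w i := if h : i ∈ x then w ⟨i, h⟩ else 0
  map_add' := by
    intro v w; ext i
    by_cases h : i ∈ x <;> simp [h]
  map_smul' := by
    intro c w; ext i
    by_cases h : i ∈ x <;> simp [h]

omit [Fintype ι] in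
lemma ext0_inj (x : Finset ι) : Function.Injective (ext0 (F := F) x) := by
  intro v w h
  ext ⟨i, hi⟩
  have := congrFun h i
  simpa [ext0, hi] using this

omit [Fintype κ] [DecidableEq κ] in
lemma RK_eq_map (G : Matrix κ ι F) (a : Finset κ) (x : Finset ι) :
    RK G a x = (LinearMap.ker
      (G.submatrix (Subtype.val : a → κ) (Subtype.val : x → ι)).mulVecLin).map (ext0 x) := by
  have key : ∀ (w : x → F) (k : κ), ∑ i, G k i * ext0 x w i = ∑ i : x, G k i * w i := by
    intro w k
    rw [← Finset.sum_subset (Finset.subset_univ x)]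
    · rw [← Finset.sum_coe_sort x (fun i => G k i * ext0 x w i)]
      refine Finset.sum_congr rfl (fun i _ => ?_)
      simp [ext0]
    · intro i _ hi
      simp [ext0, hi]
  ext v
  rw [mem_RK, Submodule.mem_map]
  constructor
  · rintro ⟨h1, h2⟩
    have hv : ext0 x (fun i : x => v i) = v := by
      ext i
      by_cases hi : i ∈ x
      · simp [ext0, hi]
      · simp [ext0, hi, h1 i hi]
    refine ⟨fun i : x => v i, ?_, hv⟩
    rw [LinearMap.mem_ker]
    ext ⟨k, hk⟩
    have h3 := h2 k hk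
    rw [← hv, key] at h3
    simpa [Matrix.mulVec, dotProduct] using h3
  · rintro ⟨w, hw, rfl⟩
    refine ⟨fun i hi => by simp [ext0, hi], fun k hk => ?_⟩
    rw [key]
    rw [LinearMap.mem_ker] at hw
    have h3 := congrFun hw ⟨k, hk⟩
    simpa [Matrix.mulVec, dotProduct] using h3

omit [Fintype κ] [DecidableEq κ] in
lemma finrank_RK_add_rank (G : Matrix κ ι F) (a : Finset κ) (x : Finset ι) :
    finrank F (RK G a x) +
      (G.submatrix (Subtype.val : a → κ) (Subtype.val : x → ι)).rank = x.card := by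
  have h1 : finrank F (RK G a x) = finrank F (LinearMap.ker
      (G.submatrix (Subtype.val : a → κ) (Subtype.val : x → ι)).mulVecLin) := by
    rw [RK_eq_map]
    exact (LinearEquiv.finrank_eq (Submodule.equivMapOfInjective _ (ext0_inj x) _)).symm
  have h2 := LinearMap.finrank_range_add_finrank_ker
    (G.submatrix (Subtype.val : a → κ) (Subtype.val : x → ι)).mulVecLin
  rw [h1, Matrix.rank]
  rw [Module.finrank_fintype_fun_eq_card, Fintype.card_coe] at h2
  omega

lemma finrank_RK_transpose (G : Matrix κ ι F) (a : Finset κ) (x : Finset ι) :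
    finrank F (RK G.transpose x a) + x.card = finrank F (RK G a x) + a.card := by
  have h1 := finrank_RK_add_rank G a x
  have h2 := finrank_RK_add_rank G.transpose x a
  have h3 : (G.transpose.submatrix (Subtype.val : x → ι) (Subtype.val : a → κ)).rank =
      (G.submatrix (Subtype.val : a → κ) (Subtype.val : x → ι)).rank := by
    rw [← Matrix.transpose_submatrix, Matrix.rank_transpose]
  omega

/-- the functional `v ↦ (G v)_k` -/
def rowF (G : Matrix κ ι F) (k : κ) : (ι → F) →ₗ[F] F where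
  toFun v := ∑ i, G k i * v i
  map_add' := by
    intro v w
    rw [← Finset.sum_add_distrib]
    exact Finset.sum_congr rfl (fun i _ => by simp [mul_add])
  map_smul' := by
    intro c v
    simp only [RingHom.id_apply, smul_eq_mul]
    rw [Finset.mul_sum]
    exact Finset.sum_congr rfl (fun i _ => by simp; ring)

omit [Fintype κ] [DecidableEq ι] in
lemma RK_union_rows (G : Matrix κ ι F) (a T : Finset κ) (x : Finset ι) :
    RK G (a ∪ T) x = RK G a x ⊓ Z (rowF G) (T : Set κ) := by
  ext v
  simp only [mem_RK, Submodule.mem_inf, mem_Z, rowF, Finset.mem_union, Finset.mem_coe,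
    LinearMap.coe_mk, AddHom.coe_mk]
  constructor
  · rintro ⟨h1, h2⟩
    exact ⟨⟨h1, fun k hk => h2 k (Or.inl hk)⟩, fun k hk => h2 k (Or.inr hk)⟩
  · rintro ⟨⟨h1, h2⟩, h3⟩
    exact ⟨h1, fun k hk => hk.elim (h2 k) (h3 k)⟩

omit [Fintype κ] [DecidableEq κ] in
lemma RK_sdiff (G : Matrix κ ι F) (a : Finset κ) (x T : Finset ι) :
    RK G a (x \ T) = RK G a x ⊓ Z (fun i => LinearMap.proj i) (T : Set ι) := by
  ext v
  simp only [mem_RK, Submodule.mem_inf, mem_Z, Finset.mem_sdiff, Finset.mem_coe,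
    LinearMap.coe_proj, Function.eval]
  constructor
  · rintro ⟨h1, h2⟩
    exact ⟨⟨fun i hi => h1 i (fun h => hi h.1), h2⟩, fun i hi => h1 i (fun h => h.2 hi)⟩
  · rintro ⟨⟨h1, h2⟩, h3⟩
    refine ⟨fun i hi => ?_, h2⟩
    by_cases hx : i ∈ x
    · by_cases hT : i ∈ T
      · exact h3 i hT
      · exact absurd ⟨hx, hT⟩ hi
    · exact h1 i hx

end kernels

section window

variable {F : Type*} [Field F] {n N : ℕ}

/-- the first `m` rows -/
def rows (N m : ℕ) : Finset (Fin N) := Finset.univ.filter (fun k => k.val < m)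

lemma rows_mono {N m m' : ℕ} (h : m ≤ m') : rows N m ⊆ rows N m' := by
  intro k hk
  simp only [rows, Finset.mem_filter, Finset.mem_univ, true_and] at hk ⊢
  omega

lemma card_rows {N m : ℕ} (h : m ≤ N) : (rows N m).card = m := by
  have : rows N m = (Finset.univ : Finset (Fin m)).map (Fin.castLEEmb h) := by
    ext k
    simp only [rows, Finset.mem_filter, Finset.mem_univ, true_and, Finset.mem_map,
      Fin.castLEEmb_apply]
    constructor
    · intro hk
      exact ⟨⟨k.val, hk⟩, by ext; simp⟩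
    · rintro ⟨j, rfl⟩
      simp
  rw [this, Finset.card_map, Finset.card_univ, Fintype.card_fin]

lemma rows_succ_of_lt {N m : ℕ} (h : m < N) : rows N (m + 1) = rows N m ∪ {⟨m, h⟩} := by
  ext k
  simp only [rows, Finset.mem_filter, Finset.mem_univ, true_and, Finset.mem_union,
    Finset.mem_singleton, Fin.ext_iff]
  omega

lemma rows_succ_of_ge {N m : ℕ} (h : N ≤ m) : rows N (m + 1) = rows N m := by
  ext k
  simp only [rows, Finset.mem_filter, Finset.mem_univ, true_and]
  omega

/-- dimension of the space of vectors supported on `x` orthogonal to the first `m` rows -/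
noncomputable def u (G : Matrix (Fin N) (Fin n) F) (m : ℕ) (x : Finset (Fin n)) : ℕ :=
  finrank F (RK G (rows N m) x)

lemma u_succ_le (G : Matrix (Fin N) (Fin n) F) (m : ℕ) (x : Finset (Fin n)) :
    u G (m + 1) x ≤ u G m x :=
  rk_mono (RK_mono (rows_mono (Nat.le_succ m)) subset_rfl)

lemma u_mono (G : Matrix (Fin N) (Fin n) F) (m : ℕ) {x y : Finset (Fin n)} (h : x ⊆ y) :
    u G m x ≤ u G m y :=
  rk_mono (RK_mono subset_rfl h)

lemma u_le_succ (G : Matrix (Fin N) (Fin n) F) (m : ℕ) (x : Finset (Fin n)) :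
    u G m x ≤ u G (m + 1) x + 1 := by
  unfold u
  by_cases h : m < N
  · rw [rows_succ_of_lt h, RK_union_rows]
    have := cut (RK G (rows N m) x) (rowF G) ⟨m, h⟩
    rw [Finset.coe_singleton]
    exact this
  · rw [rows_succ_of_ge (by omega)]; omega

lemma card_le_u (G : Matrix (Fin N) (Fin n) F) (m : ℕ) (x : Finset (Fin n)) :
    x.card ≤ u G m x + m := by
  have h := finrank_RK_transpose G (rows N m) x
  have h2 : (rows N m).card ≤ m := by
    by_cases h : m ≤ N
    · rw [card_rows h]
    · have := Finset.card_le_univ (rows N m)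
      rw [Fintype.card_fin] at this
      omega
  unfold u
  omega

/-- the left kernel -/
noncomputable def Y (G : Matrix (Fin N) (Fin n) F) (m : ℕ) (x : Finset (Fin n)) :
    Submodule F (Fin N → F) := RK G.transpose x (rows N m)

lemma finrank_Y (G : Matrix (Fin N) (Fin n) F) {m : ℕ} (hm : m ≤ N) (x : Finset (Fin n)) :
    finrank F (Y G m x) + x.card = u G m x + m := by
  have h := finrank_RK_transpose G (rows N m) x
  rw [card_rows hm] at h
  exact h

lemma Y_mono (G : Matrix (Fin N) (Fin n) F) (m : ℕ) (x : Finset (Fin n)) :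
    Y G m x ≤ Y G (m + 1) x :=
  RK_mono subset_rfl (rows_mono (Nat.le_succ m))

lemma Y_cut (G : Matrix (Fin N) (Fin n) F) (m : ℕ) (A T : Finset (Fin n)) :
    Y G m (A ∪ T) = Y G m A ⊓ Z (rowF G.transpose) (T : Set (Fin n)) :=
  RK_union_rows G.transpose A T (rows N m)

/-- the pattern defining the set `S`; the parameter `s` shifts the layers -/
def inS (G : Matrix (Fin N) (Fin n) F) (s : ℕ) (x : Finset (Fin n)) : Prop :=
  ((x.card + s) % 4 = 0 ∧ ¬ (u G x.card x = 0 ∨
    (u G (x.card - 2) x = 2 ∧ u G x.card x = 1 ∧ u G (x.card + 1) x = 1))) ∨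
  ((x.card + s) % 4 = 1 ∧ (u G (x.card - 1) x = 1 ∧ u G x.card x = 1 ∧
    u G (x.card + 1) x = 0)) ∨
  ((x.card + s) % 4 = 2 ∧ ¬ (u G x.card x = 0 ∨
    (u G (x.card - 1) x = 2 ∧ u G x.card x = 1 ∧ u G (x.card + 2) x = 0)))

lemma not_inS0 {G : Matrix (Fin N) (Fin n) F} {s : ℕ} {x : Finset (Fin n)} (h : ¬ inS G s x)
    {l : ℕ} (hl : x.card = l) (hs : (l + s) % 4 = 0) :
    u G l x = 0 ∨ (u G (l - 2) x = 2 ∧ u G l x = 1 ∧ u G (l + 1) x = 1) := by
  subst hl
  by_contra hc
  exact h (Or.inl ⟨hs, hc⟩)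

lemma not_inS1 {G : Matrix (Fin N) (Fin n) F} {s : ℕ} {x : Finset (Fin n)} (h : ¬ inS G s x)
    {l : ℕ} (hl : x.card = l) (hs : (l + s) % 4 = 1) :
    ¬ (u G (l - 1) x = 1 ∧ u G l x = 1 ∧ u G (l + 1) x = 0) := by
  subst hl
  intro hc
  exact h (Or.inr (Or.inl ⟨hs, hc⟩))

lemma not_inS2 {G : Matrix (Fin N) (Fin n) F} {s : ℕ} {x : Finset (Fin n)} (h : ¬ inS G s x)
    {l : ℕ} (hl : x.card = l) (hs : (l + s) % 4 = 2) :
    u G l x = 0 ∨ (u G (l - 1) x = 2 ∧ u G l x = 1 ∧ u G (l + 2) x = 0) := by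
  subst hl
  by_contra hc
  exact h (Or.inr (Or.inr ⟨hs, hc⟩))

variable [Fintype F]

theorem hit (hF : Fintype.card F = 4) (hN : n ≤ N) (G : Matrix (Fin N) (Fin n) F) (s : ℕ)
    (A D : Finset (Fin n)) (hD : D.card = 5) (hAD : Disjoint A D) :
    ∃ T ⊆ D, inS G s (A ∪ T) := by
  classical
  by_contra hcon
  push Not at hcon
  have cA : ∀ T ⊆ D, (A ∪ T).card = A.card + T.card := fun T hT =>
    Finset.card_union_of_disjoint (Finset.disjoint_of_subset_right hT hAD)
  have hAn : A.card + 5 ≤ n := by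
    have h1 := cA D subset_rfl
    have h2 := Finset.card_le_univ (A ∪ D)
    rw [Fintype.card_fin] at h2
    omega
  obtain ⟨a, ha⟩ : ∃ a, A.card = a := ⟨_, rfl⟩
  have c0 : ∀ m x, u G (m + 1) x ≤ u G m x := u_succ_le G
  have c1 : ∀ m x, u G m x ≤ u G (m + 1) x + 1 := u_le_succ G
  -- sub-facts for subsets of `D` of small size
  have s1 : ∀ i ∈ D, ({i} : Finset (Fin n)) ⊆ D := fun i hi => by simpa using hi
  have s2 : ∀ i ∈ D, ∀ j ∈ D, ({i, j} : Finset (Fin n)) ⊆ D := fun i hi j hj => by
    intro k hk; simp at hk; rcases hk with rfl | rfl <;> assumption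
  have s3 : ∀ i ∈ D, ∀ j ∈ D, ∀ k ∈ D, ({i, j, k} : Finset (Fin n)) ⊆ D :=
    fun i hi j hj k hk => by
      intro l hl; simp at hl; rcases hl with rfl | rfl | rfl <;> assumption
  have k2 : ∀ i j : Fin n, i ≠ j → ({i, j} : Finset (Fin n)).card = 2 := fun i j h =>
    Finset.card_pair h
  have k3 : ∀ i j k : Fin n, i ≠ j → i ≠ k → j ≠ k → ({i, j, k} : Finset (Fin n)).card = 3 :=
    fun i j k h1 h2 h3 => Finset.card_eq_three.mpr ⟨i, j, k, h1, h2, h3, rfl⟩
  -- left kernels
  have yd : ∀ m ≤ N, ∀ T ⊆ D, finrank F ↥(Y G m A ⊓ Z (rowF G.transpose) (T : Set (Fin n))) +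
      (a + T.card) = u G m (A ∪ T) + m := by
    intro m hm T hT
    rw [← Y_cut, ← ha, ← cA T hT]
    exact finrank_Y G hm _
  have y0 : ∀ m ≤ N, finrank F (Y G m A) + a = u G m A + m := by
    intro m hm
    rw [← ha]
    exact finrank_Y G hm _
  have y1 : ∀ m ≤ N, ∀ i ∈ D, finrank F ↥(Y G m A ⊓ Z (rowF G.transpose) {i}) +
      (a + 1) = u G m (A ∪ {i}) + m := by
    intro m hm i hi
    have := yd m hm {i} (s1 i hi)
    rw [Finset.coe_singleton, Finset.card_singleton] at this
    exact this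
  have y2 : ∀ m ≤ N, ∀ i ∈ D, ∀ j ∈ D, i ≠ j →
      finrank F ↥(Y G m A ⊓ Z (rowF G.transpose) {i, j}) +
      (a + 2) = u G m (A ∪ {i, j}) + m := by
    intro m hm i hi j hj hij
    have := yd m hm {i, j} (s2 i hi j hj)
    rw [k2 i j hij, Finset.coe_insert, Finset.coe_singleton] at this
    exact this
  have y3 : ∀ m ≤ N, ∀ i ∈ D, ∀ j ∈ D, ∀ k ∈ D, i ≠ j → i ≠ k → j ≠ k →
      finrank F ↥(Y G m A ⊓ Z (rowF G.transpose) {i, j, k}) +
      (a + 3) = u G m (A ∪ {i, j, k}) + m := by
    intro m hm i hi j hj k hk hij hik hjk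
    have := yd m hm {i, j, k} (s3 i hi j hj k hk)
    rw [k3 i j k hij hik hjk, Finset.coe_insert, Finset.coe_insert,
      Finset.coe_singleton] at this
    exact this
  -- right kernels
  have hsd : ∀ T ⊆ D, (A ∪ D) \ T = A ∪ (D \ T) := by
    intro T hT
    ext i
    simp only [Finset.mem_sdiff, Finset.mem_union]
    constructor
    · rintro ⟨h1 | h1, h2⟩
      · exact Or.inl h1
      · exact Or.inr ⟨h1, h2⟩
    · rintro (h1 | ⟨h1, h2⟩)
      · exact ⟨Or.inl h1, fun h => (Finset.disjoint_left.mp hAD h1) (hT h)⟩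
      · exact ⟨Or.inr h1, h2⟩
  have xd : ∀ m, ∀ T ⊆ D, finrank F ↥(RK G (rows N m) (A ∪ D) ⊓
      Z (fun i => LinearMap.proj i) (T : Set (Fin n))) = u G m (A ∪ (D \ T)) := by
    intro m T hT
    rw [← RK_sdiff, hsd T hT]
    rfl
  have x1 : ∀ m, ∀ i ∈ D, finrank F ↥(RK G (rows N m) (A ∪ D) ⊓
      Z (fun i => LinearMap.proj i) {i}) = u G m (A ∪ (D \ {i})) := by
    intro m i hi
    have := xd m {i} (s1 i hi)
    rw [Finset.coe_singleton] at this
    exact this
  have x2 : ∀ m, ∀ i ∈ D, ∀ j ∈ D, finrank F ↥(RK G (rows N m) (A ∪ D) ⊓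
      Z (fun i => LinearMap.proj i) {i, j}) = u G m (A ∪ (D \ {i, j})) := by
    intro m i hi j hj
    have := xd m {i, j} (s2 i hi j hj)
    rw [Finset.coe_insert, Finset.coe_singleton] at this
    exact this
  have x3 : ∀ m, ∀ i ∈ D, ∀ j ∈ D, ∀ k ∈ D, finrank F ↥(RK G (rows N m) (A ∪ D) ⊓
      Z (fun i => LinearMap.proj i) {i, j, k}) = u G m (A ∪ (D \ {i, j, k})) := by
    intro m i hi j hj k hk
    have := xd m {i, j, k} (s3 i hi j hj k hk)
    rw [Finset.coe_insert, Finset.coe_insert, Finset.coe_singleton] at this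
    exact this
  have cD : ∀ T ⊆ D, (A ∪ (D \ T)).card = a + (5 - T.card) := by
    intro T hT
    rw [cA _ Finset.sdiff_subset, Finset.card_sdiff_of_subset hT, hD, ha]
  have hmod : (a + s) % 4 = 0 ∨ (a + s) % 4 = 3 ∨ (a + s) % 4 = 2 ∨ (a + s) % 4 = 1 := by omega
  rcases hmod with h | h | h | h
  · -- window 0
    refine W0 hF (φ := rowF G.transpose) hD (Y_mono G a A) (Y_mono G (a + 1) A)
      ?_ ?_ ?_ ?_ ?_ ?_ ?_ ?_
    · have := y0 (a + 1) (by omega); have := card_le_u G (a + 1) A; omega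
    · have := y0 (a + 1 + 1) (by omega); have := card_le_u G (a + 1 + 1) A; omega
    · have := y0 (a + 1) (by omega); have := y0 a (by omega); have := c0 a A; omega
    · have := y0 (a + 1 + 1) (by omega); have := y0 (a + 1) (by omega); have := c0 (a + 1) A
      omega
    · obtain ⟨i, hi⟩ : D.Nonempty := by rw [← Finset.card_pos]; omega
      have e1 : (D \ {i}).card = 4 := by
        rw [Finset.card_sdiff_of_subset (s1 i hi), hD, Finset.card_singleton]
      have e2 := cA (D \ {i}) Finset.sdiff_subset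
      have e3 := not_inS0 (hcon (D \ {i}) Finset.sdiff_subset) (l := a + 4) (by omega) (by omega)
      have e4 : u G (a + 2) (A ∪ (D \ {i})) ≤ 2 := by
        have f1 : u G (a + 2) (A ∪ (D \ {i})) ≤ u G (a + 3) (A ∪ (D \ {i})) + 1 :=
          c1 (a + 2) (A ∪ (D \ {i}))
        have f2 : u G (a + 3) (A ∪ (D \ {i})) ≤ u G (a + 4) (A ∪ (D \ {i})) + 1 :=
          c1 (a + 3) (A ∪ (D \ {i}))
        simp only [show a + 4 - 2 = a + 2 by omega] at e3
        rcases e3 with e3 | ⟨e3, _⟩ <;> omega
      have e5 := yd (a + 1 + 1) (by omega) (D \ {i}) Finset.sdiff_subset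
      have e6 : finrank F ↥(Y G (a + 1 + 1) A ⊓
          Z (rowF G.transpose) ((D \ {i} : Finset (Fin n)) : Set (Fin n))) = 0 := by
        have : a + 1 + 1 = a + 2 := by omega
        rw [this] at e5 ⊢
        omega
      rw [Submodule.finrank_eq_zero] at e6
      rw [eq_bot_iff, ← e6]
      exact inf_le_inf_left _ (Z_anti (by
        rw [Finset.coe_sdiff]; exact Set.sdiff_subset))
    · have e3 := not_inS0 (hcon ∅ (Finset.empty_subset _)) (l := a)
        (by rw [Finset.union_empty]; exact ha) h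
      rw [Finset.union_empty] at e3
      have := y0 (a + 1) (by omega); have := y0 a (by omega)
      rcases e3 with e3 | ⟨_, e3, e4⟩
      · left; omega
      · right; omega
    · intro i hi
      have e1 := cA {i} (s1 i hi)
      rw [Finset.card_singleton] at e1
      have e3 := not_inS1 (hcon {i} (s1 i hi)) (l := a + 1) (by omega) (by omega)
      have f0 := y1 a (by omega) i hi
      have f1 := y1 (a + 1) (by omega) i hi
      have f2 := y1 (a + 1 + 1) (by omega) i hi
      rintro ⟨g0, g1, g2⟩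
      apply e3
      simp only [Nat.add_sub_cancel]
      refine ⟨by omega, by omega, by omega⟩
    · intro i hi j hj hij
      have e1 := cA {i, j} (s2 i hi j hj)
      rw [k2 i j hij] at e1
      have e3 := not_inS2 (hcon {i, j} (s2 i hi j hj)) (l := a + 2) (by omega) (by omega)
      have f1 := y2 (a + 1) (by omega) i hi j hj hij
      have f2 := y2 (a + 1 + 1) (by omega) i hi j hj hij
      have e5 : a + 2 - 1 = a + 1 := by omega
      have e6 : a + 1 + 1 = a + 2 := by omega
      rw [e5] at e3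
      rw [e6] at f2 ⊢
      rcases e3 with e3 | ⟨e3, e4, _⟩
      · left; omega
      · right; omega
  · -- window 1
    refine W1 hF (φ := rowF G.transpose) hD (Y_mono G (a + 1) A) (Y_mono G (a + 1 + 1) A)
      ?_ ?_ ?_ ?_ ?_ ?_ ?_ ?_ ?_
    · have := y0 (a + 1) (by omega); have := card_le_u G (a + 1) A; omega
    · have := y0 (a + 1 + 1) (by omega); have := card_le_u G (a + 1 + 1) A; omega
    · have := y0 (a + 1 + 1 + 1) (by omega); have := card_le_u G (a + 1 + 1 + 1) A; omega
    · have := y0 (a + 1 + 1) (by omega); have := y0 (a + 1) (by omega); have := c0 (a + 1) A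
      omega
    · have := y0 (a + 1 + 1 + 1) (by omega); have := y0 (a + 1 + 1) (by omega)
      have := c0 (a + 1 + 1) A
      omega
    · have e1 := cA D subset_rfl
      have e3 := not_inS0 (hcon D subset_rfl) (l := a + 5) (by omega) (by omega)
      have e6 : a + 1 + 1 + 1 = a + 3 := by omega
      rw [e6]
      have e4 : u G (a + 3) (A ∪ D) ≤ 2 := by
        have f1 : u G (a + 3) (A ∪ D) ≤ u G (a + 4) (A ∪ D) + 1 := c1 (a + 3) (A ∪ D)
        have f2 : u G (a + 4) (A ∪ D) ≤ u G (a + 5) (A ∪ D) + 1 := c1 (a + 4) (A ∪ D)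
        simp only [show a + 5 - 2 = a + 3 by omega] at e3
        rcases e3 with e3 | ⟨e3, _⟩ <;> omega
      have e5 := yd (a + 3) (by omega) D subset_rfl
      rw [← Submodule.finrank_eq_zero (R := F)]
      omega
    · intro i hi
      have e1 := cA {i} (s1 i hi)
      rw [Finset.card_singleton] at e1
      have e3 := not_inS0 (hcon {i} (s1 i hi)) (l := a + 1) (by omega) (by omega)
      have f1 := y1 (a + 1) (by omega) i hi
      have f2 := y1 (a + 1 + 1) (by omega) i hi
      rcases e3 with e3 | ⟨_, e3, e4⟩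
      · left; omega
      · right; omega
    · intro i hi j hj hij
      have e1 := cA {i, j} (s2 i hi j hj)
      rw [k2 i j hij] at e1
      have e3 := not_inS1 (hcon {i, j} (s2 i hi j hj)) (l := a + 2) (by omega) (by omega)
      have f0 := y2 (a + 1) (by omega) i hi j hj hij
      have f1 := y2 (a + 1 + 1) (by omega) i hi j hj hij
      have f2 := y2 (a + 1 + 1 + 1) (by omega) i hi j hj hij
      rintro ⟨g0, g1, g2⟩
      apply e3
      have e5 : a + 2 - 1 = a + 1 := by omega
      have e6 : a + 1 + 1 = a + 2 := by omega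
      rw [e5]
      rw [e6] at f1 f2 g1 g2
      refine ⟨by omega, by omega, by omega⟩
    · intro i hi j hj k hk hij hik hjk
      have e1 := cA {i, j, k} (s3 i hi j hj k hk)
      rw [k3 i j k hij hik hjk] at e1
      have e3 := not_inS2 (hcon {i, j, k} (s3 i hi j hj k hk)) (l := a + 3) (by omega) (by omega)
      have f1 := y3 (a + 1 + 1) (by omega) i hi j hj k hk hij hik hjk
      have f2 := y3 (a + 1 + 1 + 1) (by omega) i hi j hj k hk hij hik hjk
      have e5 : a + 3 - 1 = a + 2 := by omega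
      have e6 : a + 1 + 1 = a + 2 := by omega
      rw [e5] at e3
      rw [e6] at f1 f2 ⊢
      have e7 : a + 2 + 1 = a + 3 := by omega
      rw [e7] at f2 ⊢
      rcases e3 with e3 | ⟨e3, e4, _⟩
      · left; omega
      · right; omega
  · -- window 2
    have xx : ∀ m, finrank F (RK G (rows N m) (A ∪ D)) = u G m (A ∪ D) := fun m => rfl
    have cAD : (A ∪ D).card = a + 5 := by rw [cA D subset_rfl, ha, hD]
    refine W1 hF (φ := fun i => LinearMap.proj i) hD
      (K1 := RK G (rows N (a + 3 + 1)) (A ∪ D)) (K2 := RK G (rows N (a + 2 + 1)) (A ∪ D))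
      (K3 := RK G (rows N (a + 2)) (A ∪ D))
      (RK_mono (rows_mono (by omega)) subset_rfl) (RK_mono (rows_mono (by omega)) subset_rfl)
      ?_ ?_ ?_ ?_ ?_ ?_ ?_ ?_ ?_
    · rw [xx]; have := card_le_u G (a + 3 + 1) (A ∪ D); omega
    · rw [xx]; have := card_le_u G (a + 2 + 1) (A ∪ D); omega
    · rw [xx]; have := card_le_u G (a + 2) (A ∪ D); omega
    · rw [xx, xx]; exact c1 (a + 2 + 1) (A ∪ D)
    · rw [xx, xx]; exact c1 (a + 2) (A ∪ D)
    · rw [← Submodule.finrank_eq_zero (R := F), xd (a + 2) D subset_rfl, Finset.sdiff_self,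
        Finset.union_empty]
      have e3 := not_inS2 (hcon ∅ (Finset.empty_subset _)) (l := a)
        (by rw [Finset.union_empty]; exact ha) h
      rw [Finset.union_empty] at e3
      have f1 := c0 a A
      have f2 := c0 (a + 1) A
      have e6 : a + 1 + 1 = a + 2 := by omega
      rw [e6] at f2
      rcases e3 with e3 | ⟨_, _, e3⟩ <;> omega
    · intro i hi
      rw [x1 _ i hi, x1 _ i hi]
      have e1 := cD {i} (s1 i hi)
      rw [Finset.card_singleton] at e1
      have e3 := not_inS2 (hcon (D \ {i}) Finset.sdiff_subset) (l := a + 4) (by omega) (by omega)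
      have e5 : a + 4 - 1 = a + 2 + 1 := by omega
      have e6 : a + 4 = a + 3 + 1 := by omega
      rw [e5] at e3
      rw [e6] at e3
      rcases e3 with e3 | ⟨e3, e4, _⟩
      · left; omega
      · right; omega
    · intro i hi j hj hij
      rw [x2 _ i hi j hj, x2 _ i hi j hj, x2 _ i hi j hj]
      have e1 := cD {i, j} (s2 i hi j hj)
      rw [k2 i j hij] at e1
      have e3 := not_inS1 (hcon (D \ {i, j}) Finset.sdiff_subset) (l := a + 2 + 1) (by omega)
        (by omega)
      rintro ⟨g0, g1, g2⟩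
      apply e3
      simp only [Nat.add_sub_cancel]
      have e6 : a + 2 + 1 + 1 = a + 3 + 1 := by omega
      rw [e6]
      exact ⟨g2, g1, g0⟩
    · intro i hi j hj k hk hij hik hjk
      rw [x3 _ i hi j hj k hk, x3 _ i hi j hj k hk]
      have e1 := cD {i, j, k} (s3 i hi j hj k hk)
      rw [k3 i j k hij hik hjk] at e1
      have e3 := not_inS0 (hcon (D \ {i, j, k}) Finset.sdiff_subset) (l := a + 2) (by omega)
        (by omega)
      rcases e3 with e3 | ⟨_, e3, e4⟩
      · left; omega
      · right; omega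
  · -- window 3
    have xx : ∀ m, finrank F (RK G (rows N m) (A ∪ D)) = u G m (A ∪ D) := fun m => rfl
    have cAD : (A ∪ D).card = a + 5 := by rw [cA D subset_rfl, ha, hD]
    refine W0 hF (φ := fun i => LinearMap.proj i) hD
      (K0 := RK G (rows N (a + 4 + 1)) (A ∪ D)) (K1 := RK G (rows N (a + 3 + 1)) (A ∪ D))
      (K2 := RK G (rows N (a + 3)) (A ∪ D))
      (RK_mono (rows_mono (by omega)) subset_rfl) (RK_mono (rows_mono (by omega)) subset_rfl)
      ?_ ?_ ?_ ?_ ?_ ?_ ?_ ?_
    · rw [xx]; have := card_le_u G (a + 3 + 1) (A ∪ D); omega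
    · rw [xx]; have := card_le_u G (a + 3) (A ∪ D); omega
    · rw [xx, xx]; exact c1 (a + 3 + 1) (A ∪ D)
    · rw [xx, xx]; exact c1 (a + 3) (A ∪ D)
    · rw [← Submodule.finrank_eq_zero (R := F), xd (a + 3) D subset_rfl, Finset.sdiff_self,
        Finset.union_empty]
      obtain ⟨i, hi⟩ : D.Nonempty := by rw [← Finset.card_pos]; omega
      have e1 := cA {i} (s1 i hi)
      rw [Finset.card_singleton] at e1
      have e3 := not_inS2 (hcon {i} (s1 i hi)) (l := a + 1) (by omega) (by omega)
      have f1 := c0 (a + 1) (A ∪ {i})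
      have f2 := c0 (a + 1 + 1) (A ∪ {i})
      have f3 := u_mono G (a + 3) (Finset.subset_union_left : A ⊆ A ∪ {i})
      have e6 : a + 1 + 1 + 1 = a + 3 := by omega
      have e7 : a + 1 + 2 = a + 3 := by omega
      rw [e6] at f2
      rw [e7] at e3
      rcases e3 with e3 | ⟨_, _, e3⟩ <;> omega
    · rw [xx, xx]
      have e3 := not_inS2 (hcon D subset_rfl) (l := a + 4 + 1) (by omega) (by omega)
      simp only [Nat.add_sub_cancel] at e3
      have e6 : a + 4 = a + 3 + 1 := by omega
      rcases e3 with e3 | ⟨e3, e4, _⟩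
      · left; omega
      · right; rw [e6] at e3; exact ⟨e4, e3⟩
    · intro i hi
      rw [x1 _ i hi, x1 _ i hi, x1 _ i hi]
      have e1 := cD {i} (s1 i hi)
      rw [Finset.card_singleton] at e1
      have e3 := not_inS1 (hcon (D \ {i}) Finset.sdiff_subset) (l := a + 3 + 1) (by omega)
        (by omega)
      rintro ⟨g0, g1, g2⟩
      apply e3
      simp only [Nat.add_sub_cancel]
      have e6 : a + 3 + 1 + 1 = a + 4 + 1 := by omega
      rw [e6]
      exact ⟨g2, g1, g0⟩
    · intro i hi j hj hij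
      rw [x2 _ i hi j hj, x2 _ i hi j hj]
      have e1 := cD {i, j} (s2 i hi j hj)
      rw [k2 i j hij] at e1
      have e3 := not_inS0 (hcon (D \ {i, j}) Finset.sdiff_subset) (l := a + 3) (by omega)
        (by omega)
      rcases e3 with e3 | ⟨_, e3, e4⟩
      · left; omega
      · right; omega

end window

end Pool.Agent.Lib.MP_de7d88_co
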