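import Mathlib
import Pool.Agent.Lib.MP_de7d88_co.Hit

/-!
Counting matrices with a prescribed behaviour of the dimensions `u G m x`.
-/

namespace Pool.Agent.Lib.MP_de7d88_co

open Module

/-- prepend a value to a sequence -/
def cs (a : ℕ) (s : ℕ → ℕ) : ℕ → ℕ
  | 0 => a
  | m + 1 => s m

open Classical in
/-- probability that the chain which starts at `a`, stays at `a` with probability `r ^ a` and
moves to `a - 1` otherwise, has the property `Φ`, after `N` steps -/
noncomputable def pr (r : ℝ) : ℕ → ℕ → ((ℕ → ℕ) → Prop) → ℝ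
  | 0, a, Φ => if Φ (fun _ => a) then 1 else 0
  | N + 1, a, Φ => r ^ a * pr r N a (fun s => Φ (cs a s)) +
      (1 - r ^ a) * pr r N (a - 1) (fun s => Φ (cs a s))

lemma pr_succ (r : ℝ) (N a : ℕ) (Φ : (ℕ → ℕ) → Prop) :
    pr r (N + 1) a Φ = r ^ a * pr r N a (fun s => Φ (cs a s)) +
      (1 - r ^ a) * pr r N (a - 1) (fun s => Φ (cs a s)) := rfl

lemma pr_congr {r : ℝ} {N a : ℕ} {Φ Ψ : (ℕ → ℕ) → Prop}
    (h : ∀ s, s 0 = a → (Φ s ↔ Ψ s)) : pr r N a Φ = pr r N a Ψ := by
  classical
  cases N with
  | zero =>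
    have := h (fun _ => a) rfl
    simp only [pr]
    exact if_congr this rfl rfl
  | succ N =>
    have : (fun s => Φ (cs a s)) = (fun s => Ψ (cs a s)) := by
      funext s
      exact propext (h (cs a s) rfl)
    simp only [pr_succ, this]

lemma pr_true (r : ℝ) (N a : ℕ) : pr r N a (fun _ => True) = 1 := by
  induction N generalizing a with
  | zero => simp [pr]
  | succ N ih => rw [pr_succ, ih, ih]; ring

lemma pr_false (r : ℝ) (N a : ℕ) : pr r N a (fun _ => False) = 0 := by
  induction N generalizing a with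
  | zero => simp [pr]
  | succ N ih => rw [pr_succ, ih, ih]; ring

lemma pr_nonneg {r : ℝ} (h0 : 0 ≤ r) (h1 : r ≤ 1) (N a : ℕ) (Φ : (ℕ → ℕ) → Prop) :
    0 ≤ pr r N a Φ := by
  induction N generalizing a Φ with
  | zero =>
    simp only [pr]; split_ifs <;> norm_num
  | succ N ih =>
    rw [pr_succ]
    have : r ^ a ≤ 1 := pow_le_one₀ h0 h1
    have h2 : 0 ≤ r ^ a := pow_nonneg h0 a
    have := ih a (fun s => Φ (cs a s))
    have := ih (a - 1) (fun s => Φ (cs a s))
    have h3 : 0 ≤ 1 - r ^ a := by linarith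
    positivity

section field

variable {F : Type*} [Field F] {n : ℕ}

/-- the part of `E` orthogonal to the first `m` rows -/
def Ucut {N : ℕ} (E : Submodule F (Fin n → F)) (ω : Fin N → Fin n → F) (m : ℕ) :
    Submodule F (Fin n → F) where
  carrier := {v | v ∈ E ∧ ∀ k : Fin N, k.val < m → ∑ i, ω k i * v i = 0}
  add_mem' := by
    rintro v w ⟨hv, hv'⟩ ⟨hw, hw'⟩
    refine ⟨E.add_mem hv hw, fun k hk => ?_⟩
    have : ∑ i, ω k i * (v + w) i = ∑ i, ω k i * v i + ∑ i, ω k i * w i := by
      rw [← Finset.sum_add_distrib]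
      exact Finset.sum_congr rfl (fun i _ => by simp [mul_add])
    rw [this, hv' k hk, hw' k hk, add_zero]
  zero_mem' := ⟨E.zero_mem, fun k _ => by simp⟩
  smul_mem' := by
    rintro c v ⟨hv, hv'⟩
    refine ⟨E.smul_mem c hv, fun k hk => ?_⟩
    have : ∑ i, ω k i * (c • v) i = c * ∑ i, ω k i * v i := by
      rw [Finset.mul_sum]
      exact Finset.sum_congr rfl (fun i _ => by simp; ring)
    rw [this, hv' k hk, mul_zero]

lemma mem_Ucut {N : ℕ} {E : Submodule F (Fin n → F)} {ω : Fin N → Fin n → F} {m : ℕ}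
    {v : Fin n → F} :
    v ∈ Ucut E ω m ↔ v ∈ E ∧ ∀ k : Fin N, k.val < m → ∑ i, ω k i * v i = 0 := Iff.rfl

/-- orthogonal to one row -/
def perp (g : Fin n → F) : Submodule F (Fin n → F) := LinearMap.ker (dotProductEquiv F (Fin n) g)

lemma mem_perp {g v : Fin n → F} : v ∈ perp g ↔ ∑ i, g i * v i = 0 := by
  simp [perp, LinearMap.mem_ker, dotProduct]

/-- the sequence of dimensions -/
noncomputable def Us {N : ℕ} (E : Submodule F (Fin n → F)) (ω : Fin N → Fin n → F) (m : ℕ) : ℕ :=
  finrank F (Ucut E ω m)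

lemma Ucut_zero {N : ℕ} (E : Submodule F (Fin n → F)) (ω : Fin N → Fin n → F) :
    Ucut E ω 0 = E := by
  ext v; simp [mem_Ucut]

lemma Ucut_cons_succ {N : ℕ} (E : Submodule F (Fin n → F)) (g : Fin n → F)
    (ω : Fin N → Fin n → F) (m : ℕ) :
    Ucut E (Fin.cons g ω : Fin (N + 1) → Fin n → F) (m + 1) = Ucut (E ⊓ perp g) ω m := by
  ext v
  simp only [mem_Ucut, Submodule.mem_inf, mem_perp]
  constructor
  · rintro ⟨h1, h2⟩
    refine ⟨⟨h1, ?_⟩, ?_⟩
    · have := h2 0 (by simp)
      simpa using this
    · intro k hk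
      have := h2 k.succ (by simpa using hk)
      simpa using this
  · rintro ⟨⟨h1, h2⟩, h3⟩
    refine ⟨h1, fun k => ?_⟩
    refine Fin.cases ?_ ?_ k
    · intro _; simpa using h2
    · intro j hj
      simpa using h3 j (by simpa using hj)

lemma Us_cons {N : ℕ} (E : Submodule F (Fin n → F)) (g : Fin n → F) (ω : Fin N → Fin n → F) :
    Us E (Fin.cons g ω : Fin (N + 1) → Fin n → F) = cs (finrank F E) (Us (E ⊓ perp g) ω) := by
  funext m
  cases m with
  | zero =>
    show finrank F (Ucut E (Fin.cons g ω : Fin (N + 1) → Fin n → F) 0) = finrank F E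
    rw [Ucut_zero]
  | succ m =>
    show finrank F (Ucut E (Fin.cons g ω : Fin (N + 1) → Fin n → F) (m + 1)) =
      finrank F (Ucut (E ⊓ perp g) ω m)
    rw [Ucut_cons_succ]

lemma Us_nil (E : Submodule F (Fin n → F)) (ω : Fin 0 → Fin n → F) :
    Us E ω = fun _ => finrank F E := by
  funext m
  have : Ucut E ω m = E := by
    ext v
    simp only [mem_Ucut, and_iff_left_iff_imp]
    intro _ k
    exact k.elim0
  rw [Us, this]

/-- annihilator of `E` among the rows -/
def annR (E : Submodule F (Fin n → F)) : Submodule F (Fin n → F) :=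
  E.dualAnnihilator.comap (dotProductEquiv F (Fin n)).toLinearMap

lemma mem_annR {E : Submodule F (Fin n → F)} {g : Fin n → F} : g ∈ annR E ↔ E ≤ perp g := by
  simp only [annR, Submodule.mem_comap, Submodule.mem_dualAnnihilator, perp]
  constructor
  · intro h v hv
    rw [LinearMap.mem_ker]
    exact h v hv
  · intro h v hv
    have := h hv
    rwa [LinearMap.mem_ker] at this

lemma finrank_annR (E : Submodule F (Fin n → F)) : finrank F (annR E) + finrank F E = n := by
  have h1 : finrank F (annR E) = finrank F E.dualAnnihilator := by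
    have := LinearEquiv.finrank_map_eq (dotProductEquiv F (Fin n)).symm E.dualAnnihilator
    rw [← this]
    have e : annR E = E.dualAnnihilator.map (dotProductEquiv F (Fin n)).symm.toLinearMap := by
      rw [annR]
      ext g
      simp only [Submodule.mem_comap, Submodule.mem_map]
      constructor
      · intro h
        exact ⟨_, h, by simp⟩
      · rintro ⟨y, hy, rfl⟩
        simpa using hy
    rw [e]
  have h2 := Subspace.finrank_add_finrank_dualAnnihilator_eq E
  rw [Module.finrank_fintype_fun_eq_card, Fintype.card_fin] at h2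
  omega

variable [Fintype F]

open Classical in
lemma card_annR (E : Submodule F (Fin n → F)) :
    ((Finset.univ.filter (fun g : Fin n → F => E ≤ perp g)).card : ℝ) =
      (Fintype.card F : ℝ) ^ n * ((Fintype.card F : ℝ)⁻¹) ^ (finrank F E) := by
  have h1 : (Finset.univ.filter (fun g : Fin n → F => E ≤ perp g)).card =
      Fintype.card (annR E) := by
    rw [Fintype.card_subtype]
    congr 1
    ext g
    simp [mem_annR]
  have h2 : Fintype.card (annR E) = Fintype.card F ^ finrank F (annR E) :=
    Module.card_eq_pow_finrank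
  have h3 := finrank_annR E
  rw [h1, h2]
  have h4 : (Fintype.card F : ℝ) ≠ 0 := by
    exact_mod_cast Fintype.card_ne_zero
  push_cast
  rw [inv_pow, eq_mul_inv_iff_mul_eq₀ (pow_ne_zero _ h4), ← pow_add, h3]

open Classical in
theorem count (N : ℕ) (E : Submodule F (Fin n → F)) (Φ : (ℕ → ℕ) → Prop) :
    ((Finset.univ.filter (fun ω : Fin N → Fin n → F => Φ (Us E ω))).card : ℝ) =
      ((Fintype.card F : ℝ) ^ n) ^ N * pr ((Fintype.card F : ℝ)⁻¹) N (finrank F E) Φ := by
  induction N generalizing E Φ with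
  | zero =>
    simp only [Us_nil, pow_zero, one_mul, pr]
    split_ifs with h <;> simp [h]
  | succ N ih =>
    have h1 : ((Finset.univ.filter (fun ω : Fin (N + 1) → Fin n → F => Φ (Us E ω))).card : ℝ) =
        ∑ g : Fin n → F, ((Finset.univ.filter (fun ω : Fin N → Fin n → F =>
          (fun s => Φ (cs (finrank F E) s)) (Us (E ⊓ perp g) ω))).card : ℝ) := by
      rw [Finset.card_filter]
      push_cast
      rw [← (Fin.consEquiv (fun _ : Fin (N + 1) => Fin n → F)).sum_comp, Fintype.sum_prod_type]
      refine Finset.sum_congr rfl (fun g _ => ?_)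
      rw [Finset.card_filter]
      push_cast
      refine Finset.sum_congr rfl (fun ω _ => ?_)
      have : Us E ((Fin.consEquiv (fun _ : Fin (N + 1) => Fin n → F)) (g, ω)) =
          cs (finrank F E) (Us (E ⊓ perp g) ω) := Us_cons E g ω
      rw [this]
    rw [h1]
    have h2 : ∀ g : Fin n → F, ((Finset.univ.filter (fun ω : Fin N → Fin n → F =>
          (fun s => Φ (cs (finrank F E) s)) (Us (E ⊓ perp g) ω))).card : ℝ) =
        if E ≤ perp g then ((Fintype.card F : ℝ) ^ n) ^ N * pr ((Fintype.card F : ℝ)⁻¹) N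
            (finrank F E) (fun s => Φ (cs (finrank F E) s))
        else ((Fintype.card F : ℝ) ^ n) ^ N * pr ((Fintype.card F : ℝ)⁻¹) N
            (finrank F E - 1) (fun s => Φ (cs (finrank F E) s)) := by
      intro g
      refine (ih (E ⊓ perp g) (fun s => Φ (cs (finrank F E) s))).trans ?_
      split_ifs with h
      · rw [inf_eq_left.mpr h]
      · have a1 : finrank F E ≤ finrank F ↥(E ⊓ perp g) + 1 := finrank_cut_one E _
        have a2 : finrank F ↥(E ⊓ perp g) < finrank F E :=
          Submodule.finrank_lt_finrank_of_lt (inf_lt_left.mpr h)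
        have a3 : finrank F ↥(E ⊓ perp g) = finrank F E - 1 := by omega
        rw [a3]
    rw [Finset.sum_congr rfl (fun g _ => h2 g), Finset.sum_ite, Finset.sum_const,
      Finset.sum_const, nsmul_eq_mul, nsmul_eq_mul, card_annR, pr_succ]
    have h3 : ((Finset.univ.filter (fun g : Fin n → F => ¬ E ≤ perp g)).card : ℝ) =
        (Fintype.card F : ℝ) ^ n -
          (Fintype.card F : ℝ) ^ n * ((Fintype.card F : ℝ)⁻¹) ^ (finrank F E) := by
      rw [← card_annR E]
      have := Finset.card_filter_add_card_filter_not (s := (Finset.univ : Finset (Fin n → F)))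
        (fun g : Fin n → F => E ≤ perp g)
      have h4 : (Finset.univ : Finset (Fin n → F)).card = Fintype.card F ^ n := by
        rw [Finset.card_univ, Fintype.card_fun, Fintype.card_fin]
      rw [h4] at this
      have h5 : ((Finset.univ.filter (fun g : Fin n → F => E ≤ perp g)).card : ℝ) +
        ((Finset.univ.filter (fun g : Fin n → F => ¬ E ≤ perp g)).card : ℝ) =
          (Fintype.card F : ℝ) ^ n := by exact_mod_cast this
      linarith
    rw [h3]
    ring

end field

end Pool.Agent.Lib.MP_de7d88_co
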