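import Mathlib

/-!
# Vertex sets meeting every `d`-dimensional subcube: definitions

The vertices of the cube `Q_n` are the functions `Fin n → Bool`.  A `d`-dimensional subcube is
given by a set `D` of `d` free coordinates and a vertex `z` whose values are kept on the
coordinates outside `D`.
-/

namespace Pool.Agent.Lib.MP_de7d88_co

/-- The set `S` of vertices of `Q_n` meets every `d`-dimensional subcube: for every set `D` of
exactly `d` (free) coordinates and every vertex `z`, some `v ∈ S` agrees with `z` on all
coordinates outside `D`. -/
def MeetsSubcubes (d n : ℕ) (S : Finset (Fin n → Bool)) : Prop :=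
  ∀ D : Finset (Fin n), D.card = d → ∀ z : Fin n → Bool, ∃ v ∈ S, ∀ i, i ∉ D → v i = z i

/-- `f d n` is the minimum size of a set of vertices of `Q_n` that meets every `d`-dimensional
subcube (the full vertex set meets every subcube, so this is the infimum, hence the minimum, of
a non-empty set of natural numbers). -/
noncomputable def f (d n : ℕ) : ℕ :=
  sInf {k | ∃ S : Finset (Fin n → Bool), MeetsSubcubes d n S ∧ S.card = k}

end Pool.Agent.Lib.MP_de7d88_co
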