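import Mathlib
import Pool.Agent.Lib.MP_de7d88_co.Hit

/-!
The deterministic part of the exponential upper bound: transfer from a subcube of `Q_n` to a
`d × d` matrix, and the number of images.
-/

namespace Pool.Agent.Lib.MP_de7d88_co

open Module Matrix

section basic

variable {F : Type*} [Field F] {n h : ℕ}

/-- `v` is supported on `x` -/
def Supp (x : Finset (Fin n)) (v : Fin n → F) : Prop := ∀ i, i ∉ x → v i = 0

/-- the first `|x|` rows, restricted to `x`, form a nonsingular matrix -/
def NS (r : ℕ → Fin n → F) (x : Finset (Fin n)) : Prop :=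
  ∀ v : Fin n → F, Supp x v → (∀ k, k < x.card → r k ⬝ᵥ v = 0) → v = 0

/-- the next `h` values of the distinguished vector of `x` lie in `Γ` -/
def Hits (Γ : Finset (Fin h → F)) (r : ℕ → Fin n → F) (x : Finset (Fin n)) : Prop :=
  ∃ v : Fin n → F, Supp x v ∧ (∀ k, k < x.card - 1 → r k ⬝ᵥ v = 0) ∧ r (x.card - 1) ⬝ᵥ v = 1 ∧
    (fun j : Fin h => r (x.card + j) ⬝ᵥ v) ∈ Γ

/-- rows of a finite matrix, extended by zero rows -/
def rowN {N : ℕ} (G : Fin N → Fin n → F) (k : ℕ) : Fin n → F :=
  if hk : k < N then G ⟨k, hk⟩ else 0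

lemma rowN_of_lt {N : ℕ} (G : Fin N → Fin n → F) {k : ℕ} (hk : k < N) :
    rowN G k = G ⟨k, hk⟩ := dif_pos hk

/-- solve the linear system on `x` -/
lemma NS.solve {r : ℕ → Fin n → F} {x : Finset (Fin n)} (hx : NS r x) (c : ℕ → F) :
    ∃ v : Fin n → F, Supp x v ∧ ∀ k, k < x.card → r k ⬝ᵥ v = c k := by
  let L : (x → F) →ₗ[F] (Fin x.card → F) :=
    { toFun := fun w k => r k ⬝ᵥ (ext0 x w)
      map_add' := by intro a b; ext k; simp
      map_smul' := by intro a b; ext k; simp }
  have hinj : Function.Injective L := by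
    rw [← LinearMap.ker_eq_bot, LinearMap.ker_eq_bot']
    intro w hw
    have h1 : ext0 x w = 0 := by
      apply hx
      · intro i hi
        simp [ext0, hi]
      · intro k hk
        exact congrFun hw ⟨k, hk⟩
    apply ext0_inj x
    rw [h1, map_zero]
  have hfr : finrank F (x → F) = finrank F (Fin x.card → F) := by
    rw [Module.finrank_fintype_fun_eq_card, Module.finrank_fintype_fun_eq_card, Fintype.card_coe,
      Fintype.card_fin]
  have hsurj : Function.Surjective L :=
    (LinearMap.injective_iff_surjective_of_finrank_eq_finrank hfr).mp hinj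
  obtain ⟨w, hw⟩ := hsurj (fun k => c k)
  refine ⟨ext0 x w, ?_, ?_⟩
  · intro i hi
    simp [ext0, hi]
  · intro k hk
    exact congrFun hw ⟨k, hk⟩

end basic

section transfer

variable {F : Type*} [Field F] {n d h : ℕ}

/-- `Γ` meets the image of every nonsingular `d × d` matrix -/
def Good (F : Type*) [Field F] (d t h : ℕ) (Γ : Finset (Fin h → F)) : Prop :=
  ∀ B : Fin d → Fin d → F, (∀ T, NS (rowN B) T) → ∃ T : Finset (Fin d), T.card = t ∧
    Hits Γ (rowN B) T

theorem transfer {t : ℕ} (ht : 1 ≤ t) (hth : t + h ≤ d) {Γ : Finset (Fin h → F)}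
    (hG : Good F d t h Γ) (r : ℕ → Fin n → F) (A D : Finset (Fin n)) (hD : D.card = d)
    (hAD : Disjoint A D) (hns : ∀ T ⊆ D, NS r (A ∪ T)) :
    ∃ T ⊆ D, 0 < (A ∪ T).card ∧ Hits Γ r (A ∪ T) := by
  classical
  have hA : NS r A := by
    have := hns ∅ (Finset.empty_subset _)
    rwa [Finset.union_empty] at this
  let e : Fin d ≃ D := (D.equivFinOfCardEq hD).symm
  have hex : ∀ j : Fin d, ∃ w : Fin n → F, Supp A w ∧
      ∀ k, k < A.card → r k ⬝ᵥ w = - (r k (e j)) := fun j => hA.solve (fun k => - (r k (e j)))
  choose w hw1 hw2 using hex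
  let E : Fin d → Fin n → F := fun j => Pi.single (e j : Fin n) 1 + w j
  let B : Fin d → Fin d → F := fun k j => r (A.card + k) ⬝ᵥ E j
  let lift : (Fin d → F) → Fin n → F := fun τ => ∑ j, τ j • E j
  have l1 : ∀ τ (s : Fin n → F), s ⬝ᵥ lift τ = ∑ j, τ j * (s ⬝ᵥ E j) := by
    intro τ s
    simp only [lift, dotProduct_sum, dotProduct_smul, smul_eq_mul]
  have l2 : ∀ τ k, k < A.card → r k ⬝ᵥ lift τ = 0 := by
    intro τ k hk
    rw [l1]
    apply Finset.sum_eq_zero
    intro j _
    have : r k ⬝ᵥ E j = 0 := by
      simp only [E, dotProduct_add, hw2 j k hk, dotProduct_single, mul_one]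
      ring
    rw [this, mul_zero]
  have l3 : ∀ τ k, k < d → r (A.card + k) ⬝ᵥ lift τ = rowN B k ⬝ᵥ τ := by
    intro τ k hk
    rw [l1, rowN_of_lt B hk, dotProduct]
    exact Finset.sum_congr rfl (fun j _ => by rw [mul_comm])
  have heA : ∀ j, (e j : Fin n) ∉ A := fun j hj =>
    Finset.disjoint_left.mp hAD hj (e j).2
  have l4 : ∀ τ j, lift τ (e j) = τ j := by
    intro τ j
    simp only [lift, Finset.sum_apply, Pi.smul_apply, smul_eq_mul, E, Pi.add_apply]
    rw [Finset.sum_eq_single j]
    · rw [hw1 j _ (heA j), Pi.single_eq_same]; ring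
    · intro i _ hij
      have : (e j : Fin n) ≠ (e i : Fin n) := by
        intro h'
        exact hij (e.injective (Subtype.ext h').symm)
      rw [hw1 i _ (heA j), Pi.single_eq_of_ne this]; ring
    · intro hj; exact absurd (Finset.mem_univ j) hj
  -- image of a set of indices
  let im : Finset (Fin d) → Finset (Fin n) := fun T => T.map ⟨fun j => (e j : Fin n), fun a b hab =>
    e.injective (Subtype.ext hab)⟩
  have im1 : ∀ T, im T ⊆ D := by
    intro T i hi
    simp only [im, Finset.mem_map] at hi
    obtain ⟨j, _, rfl⟩ := hi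
    exact (e j).2
  have im2 : ∀ T, (A ∪ im T).card = A.card + T.card := by
    intro T
    rw [Finset.card_union_of_disjoint (Finset.disjoint_of_subset_right (im1 T) hAD)]
    simp [im]
  have im3 : ∀ T τ, Supp T τ → Supp (A ∪ im T) (lift τ) := by
    intro T τ hτ i hi
    rw [Finset.mem_union, not_or] at hi
    simp only [lift, Finset.sum_apply, Pi.smul_apply, smul_eq_mul, E, Pi.add_apply]
    apply Finset.sum_eq_zero
    intro j _
    by_cases hj : j ∈ T
    · have hne : i ≠ (e j : Fin n) := by
        intro h'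
        apply hi.2
        simp only [im, Finset.mem_map]
        exact ⟨j, hj, h'.symm⟩
      rw [hw1 j _ hi.1, Pi.single_eq_of_ne hne]; ring
    · rw [hτ j hj]; ring
  have hB : ∀ T, NS (rowN B) T := by
    intro T τ hτ hk
    have hTd : T.card ≤ d := by
      have := Finset.card_le_univ T
      rwa [Fintype.card_fin] at this
    have hz : lift τ = 0 := by
      apply hns (im T) (im1 T) _ (im3 T τ hτ)
      intro k hk'
      rw [im2] at hk'
      by_cases hkA : k < A.card
      · exact l2 τ k hkA
      · obtain ⟨k', rfl⟩ : ∃ k', k = A.card + k' := ⟨k - A.card, by omega⟩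
        rw [l3 τ k' (by omega)]
        exact hk k' (by omega)
    funext j
    rw [← l4 τ j, hz]
    rfl
  obtain ⟨T, hT, τ, hτ1, hτ2, hτ3, hτ4⟩ := hG B hB
  refine ⟨im T, im1 T, by rw [im2]; omega, lift τ, im3 T τ hτ1, ?_, ?_, ?_⟩
  · intro k hk
    rw [im2] at hk
    by_cases hkA : k < A.card
    · exact l2 τ k hkA
    · obtain ⟨k', rfl⟩ : ∃ k', k = A.card + k' := ⟨k - A.card, by omega⟩
      rw [l3 τ k' (by omega)]
      exact hτ2 k' (by omega)
  · rw [im2, show A.card + T.card - 1 = A.card + (T.card - 1) by omega, l3 τ _ (by omega)]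
    exact hτ3
  · rw [im2]
    have : (fun j : Fin h => r (A.card + T.card + j) ⬝ᵥ lift τ) =
        (fun j : Fin h => rowN B (T.card + j) ⬝ᵥ τ) := by
      funext j
      rw [add_assoc, l3 τ _ (by omega)]
    rw [this]
    exact hτ4

end transfer

section images

variable {F : Type*} [Field F] [Fintype F] [DecidableEq F] {d t h : ℕ}

/-- the vectors obtained from the `t`-element sets -/
noncomputable def phi (B : Fin d → Fin d → F) (hB : ∀ T, NS (rowN B) T) (t h : ℕ)
    (T : Finset (Fin d)) : Fin h → F :=
  fun j => rowN B (t + j) ⬝ᵥ ((hB T).solve (fun k => if k = t - 1 then 1 else 0)).choose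

omit [Fintype F] [DecidableEq F] in
lemma phi_inj (ht : 1 ≤ t) (hth : t + h = d) (B : Fin d → Fin d → F)
    (hB : ∀ T, NS (rowN B) T) :
    Set.InjOn (phi B hB t h) (Finset.powersetCard t (Finset.univ : Finset (Fin d))) := by
  classical
  have key : ∀ T : Finset (Fin d), T.card = t → ∀ v : Fin d → F, Supp T v →
      (∀ k, k < T.card → rowN B k ⬝ᵥ v = if k = t - 1 then 1 else 0) →
      ∀ i, i ∈ T ↔ v i ≠ 0 := by
    intro T hT v hv hk i
    constructor
    · intro hi h0
      have h1 : v = 0 := by
        apply hB (T.erase i) v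
        · intro j hj
          by_cases hji : j = i
          · rw [hji]; exact h0
          · apply hv
            intro hjT
            exact hj (Finset.mem_erase.mpr ⟨hji, hjT⟩)
        · intro k hk'
          rw [Finset.card_erase_of_mem hi, hT] at hk'
          rw [hk k (by omega), if_neg (by omega)]
      have h2 := hk (t - 1) (by omega)
      rw [if_pos rfl, h1, dotProduct_zero] at h2
      exact zero_ne_one h2
    · intro hi
      by_contra hiT
      exact hi (hv i hiT)
  intro T hT T' hT' heq
  simp only [Finset.subset_univ, true_and, Finset.mem_coe, Finset.mem_powersetCard] at hT hT'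
  have s1 := ((hB T).solve (fun k => if k = t - 1 then 1 else 0)).choose_spec
  have s2 := ((hB T').solve (fun k => if k = t - 1 then 1 else 0)).choose_spec
  set v := ((hB T).solve (fun k => if k = t - 1 then (1 : F) else 0)).choose with hv
  set v' := ((hB T').solve (fun k => if k = t - 1 then (1 : F) else 0)).choose with hv'
  have hvv : v - v' = 0 := by
    apply hB Finset.univ (v - v')
    · intro i hi; exact absurd (Finset.mem_univ i) hi
    · intro k hk
      rw [Finset.card_univ, Fintype.card_fin] at hk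
      rw [dotProduct_sub]
      by_cases hkt : k < t
      · rw [s1.2 k (by omega), s2.2 k (by omega), sub_self]
      · have := congrFun heq ⟨k - t, by omega⟩
        simp only [phi, show t + (k - t) = k by omega] at this
        rw [this, sub_self]
  have hvv' : v = v' := sub_eq_zero.mp hvv
  ext i
  rw [key T hT v s1.1 s1.2 i, key T' hT' v' s2.1 s2.2 i, hvv']

theorem exists_good (ht : 1 ≤ t) (hth : t + h = d) (m : ℕ)
    (hm : (Fintype.card F) ^ (d * d) * ((Fintype.card F) ^ h - d.choose t) ^ m <
      ((Fintype.card F) ^ h) ^ m) :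
    ∃ Γ : Finset (Fin h → F), Γ.card ≤ m ∧ Good F d t h Γ := by
  classical
  let I : (Fin d → Fin d → F) → Finset (Fin h → F) := fun B =>
    if hB : ∀ T, NS (rowN B) T then
      (Finset.powersetCard t (Finset.univ : Finset (Fin d))).image (phi B hB t h) else ∅
  let bad : (Fin d → Fin d → F) → Finset (Fin m → Fin h → F) := fun B =>
    if ∀ T, NS (rowN B) T then Fintype.piFinset (fun _ => (I B)ᶜ) else ∅
  have hbad : ∀ B, (bad B).card ≤ ((Fintype.card F) ^ h - d.choose t) ^ m := by
    intro B
    by_cases hB : ∀ T, NS (rowN B) T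
    · simp only [bad, if_pos hB]
      rw [Fintype.card_piFinset, Finset.prod_const, Finset.card_univ, Fintype.card_fin,
        Finset.card_compl, Fintype.card_fun, Fintype.card_fin]
      simp only [I, dif_pos hB]
      rw [Finset.card_image_of_injOn (phi_inj ht hth B hB), Finset.card_powersetCard,
        Finset.card_univ, Fintype.card_fin]
    · simp only [bad, if_neg hB]
      simp
  have hun : (Finset.univ.biUnion bad).card < (Finset.univ : Finset (Fin m → Fin h → F)).card := by
    refine lt_of_le_of_lt (Finset.card_biUnion_le) ?_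
    refine lt_of_le_of_lt (Finset.sum_le_sum (fun B _ => hbad B)) ?_
    rw [Finset.sum_const, Finset.card_univ, Finset.card_univ, smul_eq_mul]
    have e1 : Fintype.card (Fin d → Fin d → F) = (Fintype.card F) ^ (d * d) := by
      rw [Fintype.card_fun, Fintype.card_fun, Fintype.card_fin, ← pow_mul]
    have e2 : Fintype.card (Fin m → Fin h → F) = ((Fintype.card F) ^ h) ^ m := by
      rw [Fintype.card_fun, Fintype.card_fun, Fintype.card_fin, Fintype.card_fin]
    rw [e1, e2]
    exact hm
  obtain ⟨f, _, hf⟩ := Finset.exists_mem_notMem_of_card_lt_card hun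
  refine ⟨Finset.univ.image f, ?_, ?_⟩
  · refine Finset.card_image_le.trans ?_
    rw [Finset.card_univ, Fintype.card_fin]
  · intro B hB
    have h1 : f ∉ bad B := fun hfB => hf (Finset.mem_biUnion.mpr ⟨B, Finset.mem_univ B, hfB⟩)
    simp only [bad, if_pos hB, Fintype.mem_piFinset, Finset.mem_compl, not_forall, not_not] at h1
    obtain ⟨i, hi⟩ := h1
    simp only [I, dif_pos hB, Finset.mem_image, Finset.mem_powersetCard, Finset.subset_univ,
      true_and] at hi
    obtain ⟨T, hT, hTi⟩ := hi
    have s1 := ((hB T).solve (fun k => if k = t - 1 then (1 : F) else 0)).choose_spec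
    refine ⟨T, hT, _, s1.1, ?_, ?_, ?_⟩
    · intro k hk
      rw [s1.2 k (by omega), if_neg (by omega)]
    · rw [s1.2 (T.card - 1) (by omega), if_pos (by omega)]
    · rw [Finset.mem_image]
      refine ⟨i, Finset.mem_univ i, ?_⟩
      rw [← hTi]
      funext j
      simp only [phi, hT]

end images

end Pool.Agent.Lib.MP_de7d88_co
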