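import Mathlib
import Pool.Agent.Lib.MP_de7d88_co.Count

/-!
Bounds for the probabilities of the three patterns.
-/

namespace Pool.Agent.Lib.MP_de7d88_co

/-- pattern allowed outside `S` in the lower layer, for `l = k + 2` -/
def e0 (k : ℕ) (s : ℕ → ℕ) : Prop := s (k + 2) = 0 ∨ (s k = 2 ∧ s (k + 2) = 1 ∧ s (k + 3) = 1)

/-- pattern of the middle layer, for `l = k + 1` -/
def e1 (k : ℕ) (s : ℕ → ℕ) : Prop := s k = 1 ∧ s (k + 1) = 1 ∧ s (k + 2) = 0

/-- pattern allowed outside `S` in the upper layer, for `l = k + 1` -/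
def e2 (k : ℕ) (s : ℕ → ℕ) : Prop := s (k + 1) = 0 ∨ (s k = 2 ∧ s (k + 1) = 1 ∧ s (k + 3) = 0)

/-- `P l = ∏_{j ≤ l} (1 - 4 ^ (-j))` -/
noncomputable def P (l : ℕ) : ℝ := ∏ j ∈ Finset.range l, (1 - (1 / 4 : ℝ) ^ (j + 1))

lemma P_succ (l : ℕ) : P (l + 1) = P l * (1 - (1 / 4 : ℝ) ^ (l + 1)) := by
  rw [P, Finset.prod_range_succ]; rfl

lemma P_two : P 2 = 45 / 64 := by
  norm_num [P, Finset.prod_range_succ]

lemma P_one : P 1 = 3 / 4 := by
  norm_num [P, Finset.prod_range_succ]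

lemma q_le (k : ℕ) : (0 : ℝ) < (1 / 4 : ℝ) ^ k ∧ (1 / 4 : ℝ) ^ k ≤ 1 := by
  refine ⟨by positivity, pow_le_one₀ (by norm_num) (by norm_num)⟩

lemma P_bounds (k : ℕ) : P (k + 2) ≤ 45 / 64 ∧
    45 / 64 * (1 - 1 / 48 * (1 - (1 / 4 : ℝ) ^ k)) ≤ P (k + 2) := by
  induction k with
  | zero => rw [show 0 + 2 = 2 by rfl, P_two]; norm_num
  | succ k ih =>
    have h := P_succ (k + 2)
    have e : k + 1 + 2 = k + 2 + 1 := by omega
    rw [e, h]
    have h1 := q_le k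
    have h2 : (1 / 4 : ℝ) ^ (k + 2 + 1) = (1 / 64) * (1 / 4 : ℝ) ^ k := by
      rw [show k + 2 + 1 = k + 3 by omega, pow_add]; ring
    have h3 : (1 / 4 : ℝ) ^ (k + 1) = (1 / 4) * (1 / 4 : ℝ) ^ k := by rw [pow_succ]; ring
    rw [h2, h3]
    set t := (1 / 4 : ℝ) ^ k
    constructor
    · nlinarith [ih.1, ih.2]
    · nlinarith [ih.1, ih.2]

lemma pr_e0_succ (N a k : ℕ) : pr (1 / 4) (N + 1) a (e0 (k + 1)) =
    (1 / 4) ^ a * pr (1 / 4) N a (e0 k) + (1 - (1 / 4) ^ a) * pr (1 / 4) N (a - 1) (e0 k) := rfl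

lemma pr_e1_succ (N a k : ℕ) : pr (1 / 4) (N + 1) a (e1 (k + 1)) =
    (1 / 4) ^ a * pr (1 / 4) N a (e1 k) + (1 - (1 / 4) ^ a) * pr (1 / 4) N (a - 1) (e1 k) := rfl

lemma pr_e2_succ (N a k : ℕ) : pr (1 / 4) (N + 1) a (e2 (k + 1)) =
    (1 / 4) ^ a * pr (1 / 4) N a (e2 k) + (1 - (1 / 4) ^ a) * pr (1 / 4) N (a - 1) (e2 k) := rfl

lemma nn (N a : ℕ) (Φ : (ℕ → ℕ) → Prop) : 0 ≤ pr (1 / 4) N a Φ :=
  pr_nonneg (by norm_num) (by norm_num) N a Φ

lemma e0_base (N : ℕ) : pr (1 / 4) (N + 3) 2 (e0 0) = 795 / 1024 := by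
  have h3 : ∀ a b c d : ℕ, pr (1 / 4) N d (fun s => e0 0 (cs a (cs b (cs c s)))) =
      if (c = 0 ∨ (a = 2 ∧ c = 1 ∧ d = 1)) then 1 else 0 := by
    intro a b c d
    split_ifs with h
    · refine Eq.trans (pr_congr (Ψ := fun _ => True) ?_) (pr_true _ _ _)
      intro s hs
      simp only [e0, cs, hs]
      exact ⟨fun _ => trivial, fun _ => h⟩
    · refine Eq.trans (pr_congr (Ψ := fun _ => False) ?_) (pr_false _ _ _)
      intro s hs
      simp only [e0, cs, hs]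
      exact ⟨fun h' => h h', fun h' => h'.elim⟩
  rw [pr_succ, pr_succ, pr_succ, pr_succ, pr_succ, pr_succ, pr_succ]
  simp only [h3]
  norm_num

lemma e1_base (N : ℕ) : pr (1 / 4) (N + 2) 1 (e1 0) = 3 / 16 := by
  have h3 : ∀ a b d : ℕ, pr (1 / 4) N d (fun s => e1 0 (cs a (cs b s))) =
      if (a = 1 ∧ b = 1 ∧ d = 0) then 1 else 0 := by
    intro a b d
    split_ifs with h
    · refine Eq.trans (pr_congr (Ψ := fun _ => True) ?_) (pr_true _ _ _)
      intro s hs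
      simp only [e1, cs, hs]
      exact ⟨fun _ => trivial, fun _ => h⟩
    · refine Eq.trans (pr_congr (Ψ := fun _ => False) ?_) (pr_false _ _ _)
      intro s hs
      simp only [e1, cs, hs]
      exact ⟨fun h' => h h', fun h' => h'.elim⟩
  rw [pr_succ, pr_succ, pr_succ]
  simp only [h3]
  norm_num

lemma e2_base1 (N : ℕ) : pr (1 / 4) (N + 1) 1 (e2 0) ≥ 3 / 4 := by
  rw [pr_succ]
  have h1 : pr (1 / 4) N (1 - 1) (fun s => e2 0 (cs 1 s)) = 1 := by
    refine Eq.trans (pr_congr (Ψ := fun _ => True) ?_) (pr_true _ _ _)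
    intro s hs
    simp [e2, cs, hs]
  have h2 := nn N 1 (fun s => e2 0 (cs 1 s))
  rw [h1]
  norm_num
  linarith

lemma e2_base2 (N : ℕ) : pr (1 / 4) (N + 3) 2 (e2 0) = 225 / 256 := by
  have h3 : ∀ a b c d : ℕ, pr (1 / 4) N d (fun s => e2 0 (cs a (cs b (cs c s)))) =
      if (b = 0 ∨ (a = 2 ∧ b = 1 ∧ d = 0)) then 1 else 0 := by
    intro a b c d
    split_ifs with h
    · refine Eq.trans (pr_congr (Ψ := fun _ => True) ?_) (pr_true _ _ _)
      intro s hs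
      simp only [e2, cs, hs]
      exact ⟨fun _ => trivial, fun _ => h⟩
    · refine Eq.trans (pr_congr (Ψ := fun _ => False) ?_) (pr_false _ _ _)
      intro s hs
      simp only [e2, cs, hs]
      exact ⟨fun h' => h h', fun h' => h'.elim⟩
  rw [pr_succ, pr_succ, pr_succ, pr_succ, pr_succ, pr_succ, pr_succ]
  simp only [h3]
  norm_num

/-- lower layer -/
lemma e0_bound (k N : ℕ) (hN : k + 3 ≤ N) :
    P (k + 2) * (53 / 48) ≤ pr (1 / 4) N (k + 2) (e0 k) := by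
  induction k generalizing N with
  | zero =>
    obtain ⟨M, rfl⟩ : ∃ M, N = M + 3 := ⟨N - 3, by omega⟩
    rw [e0_base, show 0 + 2 = 2 by rfl, P_two]; norm_num
  | succ k ih =>
    obtain ⟨M, rfl⟩ : ∃ M, N = M + 1 := ⟨N - 1, by omega⟩
    have h := ih M (by omega)
    rw [pr_e0_succ, show k + 1 + 2 - 1 = k + 2 by omega, show k + 1 + 2 = k + 2 + 1 by omega,
      P_succ]
    have h1 := q_le (k + 2 + 1)
    have h2 := nn M (k + 2 + 1) (e0 k)
    nlinarith [mul_nonneg h1.1.le h2, mul_le_mul_of_nonneg_left h (sub_nonneg.mpr h1.2)]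

/-- middle layer: impossible if behind -/
lemma e1_zero (k N a : ℕ) (ha : k + 2 ≤ a) : pr (1 / 4) N a (e1 k) = 0 := by
  induction k generalizing N a with
  | zero =>
    refine Eq.trans (pr_congr (Ψ := fun _ => False) ?_) (pr_false _ _ _)
    intro s hs
    simp only [e1]
    constructor
    · rintro ⟨h, _⟩; omega
    · exact fun h => h.elim
  | succ k ih =>
    cases N with
    | zero =>
      have hn : ¬ e1 (k + 1) (fun _ => a) := by
        rintro ⟨h, _⟩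
        have : a = 1 := h
        omega
      rw [pr, if_neg hn]
    | succ N => rw [pr_e1_succ, ih N a (by omega), ih N (a - 1) (by omega)]; ring

lemma e1_value (k N : ℕ) (hN : k + 2 ≤ N) : pr (1 / 4) N (k + 1) (e1 k) = P (k + 1) / 4 := by
  induction k generalizing N with
  | zero =>
    obtain ⟨M, rfl⟩ : ∃ M, N = M + 2 := ⟨N - 2, by omega⟩
    rw [show 0 + 1 = 1 by rfl, P_one, e1_base]; norm_num
  | succ k ih =>
    obtain ⟨M, rfl⟩ : ∃ M, N = M + 1 := ⟨N - 1, by omega⟩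
    have h := ih M (by omega)
    rw [pr_e1_succ, show k + 1 + 1 - 1 = k + 1 by omega, h, e1_zero k M (k + 1 + 1) (by omega),
      P_succ (k + 1)]
    ring

lemma e2_beta (k N : ℕ) (hN : k + 3 ≤ N) :
    P (k + 2) * (5 / 4) ≤ pr (1 / 4) N (k + 2) (e2 k) := by
  induction k generalizing N with
  | zero =>
    obtain ⟨M, rfl⟩ : ∃ M, N = M + 3 := ⟨N - 3, by omega⟩
    rw [e2_base2, show 0 + 2 = 2 by rfl, P_two]; norm_num
  | succ k ih =>
    obtain ⟨M, rfl⟩ : ∃ M, N = M + 1 := ⟨N - 1, by omega⟩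
    have h := ih M (by omega)
    rw [pr_e2_succ, show k + 1 + 2 - 1 = k + 2 by omega, show k + 1 + 2 = k + 2 + 1 by omega,
      P_succ]
    have h1 := q_le (k + 2 + 1)
    have h2 := nn M (k + 2 + 1) (e2 k)
    nlinarith [mul_nonneg h1.1.le h2, mul_le_mul_of_nonneg_left h (sub_nonneg.mpr h1.2)]

lemma e2_alpha (k N : ℕ) (hN : k + 3 ≤ N) :
    P (k + 1) * (1 + 5 / 48 * (1 - (1 / 4 : ℝ) ^ k)) ≤ pr (1 / 4) N (k + 1) (e2 k) := by
  induction k generalizing N with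
  | zero =>
    obtain ⟨M, rfl⟩ : ∃ M, N = M + 1 := ⟨N - 1, by omega⟩
    have := e2_base1 M
    rw [show 0 + 1 = 1 by rfl, P_one]; norm_num; linarith
  | succ k ih =>
    obtain ⟨M, rfl⟩ : ∃ M, N = M + 1 := ⟨N - 1, by omega⟩
    have h := ih M (by omega)
    have hb := e2_beta k M (by omega)
    rw [pr_e2_succ, show k + 1 + 1 - 1 = k + 1 by omega, P_succ (k + 1)]
    rw [show k + 2 = k + 1 + 1 by omega, P_succ (k + 1)] at hb
    have h1 := q_le (k + 1 + 1)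
    have a1 := mul_le_mul_of_nonneg_left hb h1.1.le
    have a2 := mul_le_mul_of_nonneg_left h (sub_nonneg.mpr h1.2)
    have e1 : (1 / 4 : ℝ) ^ k = 16 * (1 / 4 : ℝ) ^ (k + 1 + 1) := by
      rw [show k + 1 + 1 = k + 2 by omega, pow_add]; ring
    have e2' : (1 / 4 : ℝ) ^ (k + 1) = 4 * (1 / 4 : ℝ) ^ (k + 1 + 1) := by
      rw [pow_succ (1 / 4 : ℝ) (k + 1)]; ring
    rw [e1] at a2
    rw [e2']
    refine le_trans (le_of_eq ?_) (add_le_add a1 a2)
    ring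

/-- total cost of the three roles in a layer `l = k + 6` -/
lemma total_cost (k N : ℕ) (hN : k + 8 ≤ N) :
    (1 - pr (1 / 4) N (k + 6) (e0 (k + 4))) + pr (1 / 4) N (k + 6) (e1 (k + 5)) +
      (1 - pr (1 / 4) N (k + 6) (e2 (k + 5))) ≤ 652 / 1000 := by
  have h0 := e0_bound (k + 4) N (by omega)
  have h1 := e1_value (k + 5) N (by omega)
  have h2 := e2_alpha (k + 5) N (by omega)
  rw [show k + 4 + 2 = k + 6 by omega] at h0
  rw [show k + 5 + 1 = k + 6 by omega] at h1 h2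
  have h3 := (P_bounds (k + 4)).2
  rw [show k + 4 + 2 = k + 6 by omega] at h3
  have h4 : (1 / 4 : ℝ) ^ (k + 5) ≤ 1 / 1024 := by
    rw [pow_add]
    have := q_le k
    nlinarith [this.1, this.2]
  have h5 := (q_le (k + 4)).1
  have h6 : 0 < P (k + 6) := by nlinarith
  have h7 : 0 ≤ P (k + 6) * (1 / 1024 - (1 / 4 : ℝ) ^ (k + 5)) :=
    mul_nonneg h6.le (by linarith)
  rw [h1]
  nlinarith

end Pool.Agent.Lib.MP_de7d88_co
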