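import Mathlib
import Pool.Agent.Lib.MP_de7d88_co.Defs
import Pool.Agent.Lib.MP_de7d88_co.Value

/-!
Assembly: averaging over all matrices and all shifts, and passage to the limit.
-/

namespace Pool.Agent.Lib.MP_de7d88_co

open Module Filter Topology

/-! ### Basic facts on `f` -/

lemma meets_univ (d n : ℕ) : MeetsSubcubes d n Finset.univ :=
  fun _ _ z => ⟨z, Finset.mem_univ z, fun _ _ => rfl⟩

lemma f_le {d n : ℕ} {S : Finset (Fin n → Bool)} (h : MeetsSubcubes d n S) : f d n ≤ S.card :=
  Nat.sInf_le ⟨S, h, rfl⟩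

lemma f_spec (d n : ℕ) : ∃ S : Finset (Fin n → Bool), MeetsSubcubes d n S ∧ S.card = f d n := by
  have : {k | ∃ S : Finset (Fin n → Bool), MeetsSubcubes d n S ∧ S.card = k}.Nonempty :=
    ⟨_, Finset.univ, meets_univ d n, rfl⟩
  exact Nat.sInf_mem this

/-- one half of a set of vertices -/
def half {n : ℕ} (S : Finset (Fin (n + 1) → Bool)) (b : Bool) : Finset (Fin n → Bool) :=
  Finset.univ.filter (fun v => (Fin.cons b v : Fin (n + 1) → Bool) ∈ S)

lemma meets_half {d n : ℕ} {S : Finset (Fin (n + 1) → Bool)} (h : MeetsSubcubes d (n + 1) S)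
    (b : Bool) : MeetsSubcubes d n (half S b) := by
  intro D hD z
  obtain ⟨v, hv, hvz⟩ := h (D.map (Fin.succEmb n)) (by rw [Finset.card_map, hD])
    (Fin.cons b z : Fin (n + 1) → Bool)
  have h0 : v 0 = b := by
    have := hvz 0 (by
      rw [Finset.mem_map]
      rintro ⟨i, _, hi⟩
      exact absurd hi (Fin.succ_ne_zero i))
    simpa using this
  refine ⟨Fin.tail v, ?_, ?_⟩
  · rw [half, Finset.mem_filter]
    refine ⟨Finset.mem_univ _, ?_⟩
    rw [← h0, Fin.cons_self_tail]
    exact hv
  · intro i hi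
    have := hvz i.succ (by
      rw [Finset.mem_map]
      rintro ⟨j, hj, hji⟩
      have : j = i := Fin.succ_injective n hji
      exact hi (this ▸ hj))
    simpa [Fin.tail] using this

lemma card_half {n : ℕ} (S : Finset (Fin (n + 1) → Bool)) :
    (half S false).card + (half S true).card = S.card := by
  have key : ∀ b, (half S b).card = (S.filter (fun v => v 0 = b)).card := by
    intro b
    apply Finset.card_bij (fun v _ => (Fin.cons b v : Fin (n + 1) → Bool))
    · intro v hv
      rw [half, Finset.mem_filter] at hv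
      rw [Finset.mem_filter]
      exact ⟨hv.2, by simp⟩
    · intro v _ w _ hvw
      exact (Fin.cons_right_injective (α := fun _ => Bool) b) hvw
    · intro v hv
      rw [Finset.mem_filter] at hv
      refine ⟨Fin.tail v, ?_, ?_⟩
      · rw [half, Finset.mem_filter]
        refine ⟨Finset.mem_univ _, ?_⟩
        rw [← hv.2, Fin.cons_self_tail]
        exact hv.1
      · rw [← hv.2, Fin.cons_self_tail]
  rw [key, key]
  have h := Finset.card_filter_add_card_filter_not (s := S) (fun v => v 0 = false)
  have h2 : S.filter (fun v => ¬ v 0 = false) = S.filter (fun v => v 0 = true) := by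
    apply Finset.filter_congr
    intro v _
    simp
  rw [h2] at h
  exact h

lemma two_mul_f_le (d n : ℕ) : 2 * f d n ≤ f d (n + 1) := by
  obtain ⟨S, hS, hc⟩ := f_spec d (n + 1)
  have h1 := f_le (meets_half hS false)
  have h2 := f_le (meets_half hS true)
  have h3 := card_half S
  omega

lemma ratio_mono (d : ℕ) : Monotone (fun n : ℕ => (f d n : ℝ) / 2 ^ n) := by
  apply monotone_nat_of_le_succ
  intro n
  have h := two_mul_f_le d n
  have h' : (2 : ℝ) * f d n ≤ f d (n + 1) := by exact_mod_cast h
  rw [div_le_div_iff₀ (by positivity) (by positivity), pow_succ]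
  nlinarith [pow_pos (show (0 : ℝ) < 2 by norm_num) n]

lemma ratio_le_one (d n : ℕ) : (f d n : ℝ) / 2 ^ n ≤ 1 := by
  have h := f_le (meets_univ d n)
  rw [Finset.card_univ, Fintype.card_fun, Fintype.card_bool, Fintype.card_fin] at h
  rw [div_le_one (by positivity)]
  exact_mod_cast h

/-! ### The coordinate subspace of `x` -/

section field

variable {F : Type*} [Field F] {n N : ℕ}

/-- vectors supported on `x` -/
def suppS (F : Type*) [Field F] {n : ℕ} (x : Finset (Fin n)) : Submodule F (Fin n → F) :=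
  LinearMap.range (ext0 (F := F) x)

lemma finrank_suppS (x : Finset (Fin n)) : finrank F (suppS F x) = x.card := by
  rw [suppS, LinearMap.finrank_range_of_inj (ext0_inj x), Module.finrank_fintype_fun_eq_card,
    Fintype.card_coe]

lemma mem_suppS {x : Finset (Fin n)} {v : Fin n → F} :
    v ∈ suppS F x ↔ ∀ i, i ∉ x → v i = 0 := by
  rw [suppS, LinearMap.mem_range]
  constructor
  · rintro ⟨w, rfl⟩ i hi
    simp [ext0, hi]
  · intro h
    refine ⟨fun i : x => v i, ?_⟩
    ext i
    by_cases hi : i ∈ x
    · simp [ext0, hi]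
    · simp [ext0, hi, h i hi]

lemma u_eq_Us (G : Fin N → Fin n → F) (x : Finset (Fin n)) (m : ℕ) :
    u (Matrix.of G) m x = Us (suppS F x) G m := by
  rw [u, Us]
  have : RK (Matrix.of G) (rows N m) x = Ucut (suppS F x) G m := by
    ext v
    rw [mem_RK, mem_Ucut, mem_suppS]
    simp [rows]
  rw [this]

end field

/-! ### Probability of the complement -/

lemma pr_not (r : ℝ) (N a : ℕ) (Φ : (ℕ → ℕ) → Prop) :
    pr r N a (fun s => ¬ Φ s) = 1 - pr r N a Φ := by
  classical
  induction N generalizing a Φ with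
  | zero =>
    by_cases h : Φ (fun _ => a)
    · simp [pr, h]
    · simp [pr, h]
  | succ N ih =>
    rw [pr_succ, pr_succ, ih a (fun s => Φ (cs a s)), ih (a - 1) (fun s => Φ (cs a s))]
    ring

/-! ### Averaging -/

section avg

variable {F : Type*} [Field F] [Fintype F] {n : ℕ}

/-- the density contributed by the layer residue `ρ` in a layer `k + 6` -/
noncomputable def g (N k ρ : ℕ) : ℝ :=
  if ρ = 0 then 1 - pr (1 / 4) N (k + 6) (e0 (k + 4))
  else if ρ = 1 then pr (1 / 4) N (k + 6) (e1 (k + 5))
  else if ρ = 2 then 1 - pr (1 / 4) N (k + 6) (e2 (k + 5))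
  else 0

open Classical in
lemma card_inS (hF : Fintype.card F = 4) (N s k : ℕ) (x : Finset (Fin n)) (hx : x.card = k + 6) :
    ((Finset.univ.filter (fun G : Fin N → Fin n → F => inS (Matrix.of G) s x)).card : ℝ) =
      ((4 : ℝ) ^ n) ^ N * g N k ((x.card + s) % 4) := by
  have hq : ((Fintype.card F : ℕ) : ℝ) = 4 := by rw [hF]; norm_num
  have h4 : ((4 : ℝ))⁻¹ = 1 / 4 := by norm_num
  have hc := fun Φ => count (F := F) N (suppS F x) Φ
  simp only [finrank_suppS, hq, h4, hx] at hc
  have hr : (x.card + s) % 4 = 0 ∨ (x.card + s) % 4 = 1 ∨ (x.card + s) % 4 = 2 ∨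
      (x.card + s) % 4 = 3 := by omega
  have m2 : k + 6 - 2 = k + 4 := by omega
  have m1 : k + 6 - 1 = k + 5 := by omega
  rcases hr with h | h | h | h
  · have e : (Finset.univ.filter (fun G : Fin N → Fin n → F => inS (Matrix.of G) s x)) =
        Finset.univ.filter (fun G : Fin N → Fin n → F => ¬ e0 (k + 4) (Us (suppS F x) G)) := by
      apply Finset.filter_congr
      intro G _
      simp only [inS, u_eq_Us, e0, hx] at h ⊢
      simp only [h, m2, true_and, show (0 : ℕ) ≠ 1 by norm_num, show (0 : ℕ) ≠ 2 by norm_num,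
        false_and, or_false]
    rw [e, h]
    refine Eq.trans ?_ ((hc (fun s => ¬ e0 (k + 4) s)).trans ?_)
    · congr!
    · rw [pr_not]
      simp [g]
  · have e : (Finset.univ.filter (fun G : Fin N → Fin n → F => inS (Matrix.of G) s x)) =
        Finset.univ.filter (fun G : Fin N → Fin n → F => e1 (k + 5) (Us (suppS F x) G)) := by
      apply Finset.filter_congr
      intro G _
      simp only [inS, u_eq_Us, e1, hx] at h ⊢
      simp only [h, m1, true_and, show (1 : ℕ) ≠ 0 by norm_num, show (1 : ℕ) ≠ 2 by norm_num,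
        false_and, or_false, false_or]
    rw [e, h]
    refine (hc (fun s => e1 (k + 5) s)).trans ?_
    simp [g]
  · have e : (Finset.univ.filter (fun G : Fin N → Fin n → F => inS (Matrix.of G) s x)) =
        Finset.univ.filter (fun G : Fin N → Fin n → F => ¬ e2 (k + 5) (Us (suppS F x) G)) := by
      apply Finset.filter_congr
      intro G _
      simp only [inS, u_eq_Us, e2, hx] at h ⊢
      simp only [h, m1, true_and, show (2 : ℕ) ≠ 0 by norm_num, show (2 : ℕ) ≠ 1 by norm_num,
        false_and, false_or]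
    rw [e, h]
    refine Eq.trans ?_ ((hc (fun s => ¬ e2 (k + 5) s)).trans ?_)
    · congr!
    · rw [pr_not]
      simp [g]
  · have e : (Finset.univ.filter (fun G : Fin N → Fin n → F => inS (Matrix.of G) s x)) = ∅ := by
      apply Finset.filter_eq_empty_iff.mpr
      intro G _
      simp only [inS]
      rw [h]
      simp
    rw [e, h]
    simp [g]

open Classical in
lemma sum_shift (hF : Fintype.card F = 4) (N k : ℕ) (hN : k + 8 ≤ N) (x : Finset (Fin n))
    (hx : x.card = k + 6) :
    ∑ s ∈ Finset.range 4, ((Finset.univ.filter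
      (fun G : Fin N → Fin n → F => inS (Matrix.of G) s x)).card : ℝ) ≤
      ((4 : ℝ) ^ n) ^ N * (652 / 1000) := by
  have h1 : ∑ s ∈ Finset.range 4, ((Finset.univ.filter
      (fun G : Fin N → Fin n → F => inS (Matrix.of G) s x)).card : ℝ) =
      ((4 : ℝ) ^ n) ^ N * ∑ s ∈ Finset.range 4, g N k ((x.card + s) % 4) := by
    rw [Finset.mul_sum]
    exact Finset.sum_congr rfl (fun s _ => card_inS hF N s k x hx)
  have h2 : ∑ s ∈ Finset.range 4, g N k ((x.card + s) % 4) = g N k 0 + g N k 1 + g N k 2 := by
    have g3 : g N k 3 = 0 := by simp [g]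
    have hr : x.card % 4 = 0 ∨ x.card % 4 = 1 ∨ x.card % 4 = 2 ∨ x.card % 4 = 3 := by omega
    simp only [Finset.sum_range_succ, Finset.sum_range_zero, zero_add, add_zero]
    rcases hr with h | h | h | h
    · rw [h, show (x.card + 1) % 4 = 1 by omega, show (x.card + 2) % 4 = 2 by omega,
        show (x.card + 3) % 4 = 3 by omega, g3]
      ring
    · rw [h, show (x.card + 1) % 4 = 2 by omega, show (x.card + 2) % 4 = 3 by omega,
        show (x.card + 3) % 4 = 0 by omega, g3]
      ring
    · rw [h, show (x.card + 1) % 4 = 3 by omega, show (x.card + 2) % 4 = 0 by omega,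
        show (x.card + 3) % 4 = 1 by omega, g3]
      ring
    · rw [h, show (x.card + 1) % 4 = 0 by omega, show (x.card + 2) % 4 = 1 by omega,
        show (x.card + 3) % 4 = 2 by omega, g3]
      ring
  rw [h1, h2]
  apply mul_le_mul_of_nonneg_left _ (by positivity)
  have := total_cost k N hN
  simpa [g] using this

open Classical in
lemma sum_shift_small (hF : Fintype.card F = 4) (N : ℕ) (x : Finset (Fin n)) :
    ∑ s ∈ Finset.range 4, ((Finset.univ.filter
      (fun G : Fin N → Fin n → F => inS (Matrix.of G) s x)).card : ℝ) ≤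
      ((4 : ℝ) ^ n) ^ N * 4 := by
  have h : ∀ s ∈ Finset.range 4, ((Finset.univ.filter
      (fun G : Fin N → Fin n → F => inS (Matrix.of G) s x)).card : ℝ) ≤ ((4 : ℝ) ^ n) ^ N := by
    intro s _
    have h1 := Finset.card_filter_le (Finset.univ : Finset (Fin N → Fin n → F))
      (fun G : Fin N → Fin n → F => inS (Matrix.of G) s x)
    rw [Finset.card_univ, Fintype.card_fun, Fintype.card_fun, Fintype.card_fin,
      Fintype.card_fin, hF] at h1
    exact_mod_cast h1
  refine (Finset.sum_le_sum h).trans (le_of_eq ?_)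
  rw [Finset.sum_const, Finset.card_range, nsmul_eq_mul]
  push_cast
  ring

open Classical in
/-- the set of vertices -/
noncomputable def SS (N s : ℕ) (G : Fin N → Fin n → F) : Finset (Finset (Fin n)) :=
  Finset.univ.filter (fun x => inS (Matrix.of G) s x)

lemma exists_small (hF : Fintype.card F = 4) (n : ℕ) :
    ∃ s : ℕ, ∃ G : Fin (n + 3) → Fin n → F, ((SS (n + 3) s G).card : ℝ) ≤
      163 / 1000 * 2 ^ n +
        ((Finset.univ.filter (fun x : Finset (Fin n) => x.card < 6)).card : ℝ) := by
  classical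
  by_contra hcon
  push Not at hcon
  set W : ℝ := ((4 : ℝ) ^ n) ^ (n + 3) with hW
  have hWpos : 0 < W := by positivity
  have cardG : ((Finset.univ : Finset (Fin (n + 3) → Fin n → F)).card : ℝ) = W := by
    rw [Finset.card_univ, Fintype.card_fun, Fintype.card_fun, Fintype.card_fin,
      Fintype.card_fin, hF]
    push_cast
    rfl
  set c : ℝ := ((Finset.univ.filter (fun x : Finset (Fin n) => x.card < 6)).card : ℝ) with hc
  -- lower bound
  have low : 4 * W * (163 / 1000 * 2 ^ n + c) <
      ∑ s ∈ Finset.range 4, ∑ G : Fin (n + 3) → Fin n → F, ((SS (n + 3) s G).card : ℝ) := by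
    have h1 : ∀ s ∈ Finset.range 4, W * (163 / 1000 * 2 ^ n + c) <
        ∑ G : Fin (n + 3) → Fin n → F, ((SS (n + 3) s G).card : ℝ) := by
      intro s _
      rw [← cardG, ← nsmul_eq_mul, ← Finset.sum_const]
      apply Finset.sum_lt_sum_of_nonempty Finset.univ_nonempty
      intro G _
      exact hcon s G
    have h2 := Finset.sum_lt_sum_of_nonempty (s := Finset.range 4) ⟨0, by simp⟩ h1
    rw [Finset.sum_const, Finset.card_range, nsmul_eq_mul] at h2
    refine lt_of_eq_of_lt ?_ h2
    push_cast
    ring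
  -- exchange of summation
  have swap : ∑ s ∈ Finset.range 4, ∑ G : Fin (n + 3) → Fin n → F,
      ((SS (n + 3) s G).card : ℝ) =
      ∑ x : Finset (Fin n), ∑ s ∈ Finset.range 4, ((Finset.univ.filter
        (fun G : Fin (n + 3) → Fin n → F => inS (Matrix.of G) s x)).card : ℝ) := by
    rw [Finset.sum_comm]
    have h3 : ∀ x : Finset (Fin n), ∑ s ∈ Finset.range 4, ((Finset.univ.filter
        (fun G : Fin (n + 3) → Fin n → F => inS (Matrix.of G) s x)).card : ℝ) =
        ∑ s ∈ Finset.range 4, ∑ G : Fin (n + 3) → Fin n → F,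
          (if inS (Matrix.of G) s x then (1 : ℝ) else 0) := by
      intro x
      refine Finset.sum_congr rfl (fun s _ => ?_)
      rw [Finset.card_filter]; push_cast; rfl
    have h4 : ∀ G : Fin (n + 3) → Fin n → F, ∑ s ∈ Finset.range 4, ((SS (n + 3) s G).card : ℝ) =
        ∑ s ∈ Finset.range 4, ∑ x : Finset (Fin n),
          (if inS (Matrix.of G) s x then (1 : ℝ) else 0) := by
      intro G
      refine Finset.sum_congr rfl (fun s _ => ?_)
      rw [SS, Finset.card_filter]; push_cast; rfl
    rw [Finset.sum_congr rfl (fun G _ => h4 G), Finset.sum_congr rfl (fun x _ => h3 x)]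
    rw [Finset.sum_comm]
    rw [Finset.sum_congr rfl (fun s _ => Finset.sum_comm)]
    rw [Finset.sum_comm]
  -- upper bound
  have up : ∑ x : Finset (Fin n), ∑ s ∈ Finset.range 4, ((Finset.univ.filter
        (fun G : Fin (n + 3) → Fin n → F => inS (Matrix.of G) s x)).card : ℝ) ≤
      4 * W * (163 / 1000 * 2 ^ n + c) := by
    have h5 : ∀ x ∈ (Finset.univ : Finset (Finset (Fin n))), ∑ s ∈ Finset.range 4,
        ((Finset.univ.filter (fun G : Fin (n + 3) → Fin n → F =>
          inS (Matrix.of G) s x)).card : ℝ) ≤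
        W * (652 / 1000) + (if x.card < 6 then W * 4 else 0) := by
      intro x _
      by_cases hx : x.card < 6
      · rw [if_pos hx]
        have := sum_shift_small (n := n) hF (n + 3) x
        nlinarith
      · rw [if_neg hx]
        have hxn : x.card ≤ n := by
          have := Finset.card_le_univ x
          rwa [Fintype.card_fin] at this
        have := sum_shift (n := n) hF (n + 3) (x.card - 6) (by omega) x (by omega)
        linarith
    refine (Finset.sum_le_sum h5).trans (le_of_eq ?_)
    rw [Finset.sum_add_distrib, Finset.sum_const, ← Finset.sum_filter, Finset.sum_const,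
      nsmul_eq_mul, nsmul_eq_mul, ← hc]
    have h6 : ((Finset.univ : Finset (Finset (Fin n))).card : ℝ) = 2 ^ n := by
      rw [Finset.card_univ, Fintype.card_finset, Fintype.card_fin]
      push_cast; rfl
    rw [h6]
    ring
  linarith

lemma f_five_le (hF : Fintype.card F = 4) (n : ℕ) :
    (f 5 n : ℝ) ≤ 163 / 1000 * 2 ^ n +
      ((Finset.univ.filter (fun x : Finset (Fin n) => x.card < 6)).card : ℝ) := by
  classical
  obtain ⟨s, G, hG⟩ := exists_small (F := F) hF n
  refine le_trans ?_ hG
  have hm : MeetsSubcubes 5 n ((SS (n + 3) s G).image (fun x i => decide (i ∈ x))) := by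
    intro D hD z
    obtain ⟨T, hT, hS⟩ := hit hF (by omega : n ≤ n + 3) (Matrix.of G) s
      (Finset.univ.filter (fun i => i ∉ D ∧ z i = true)) D hD (by
        rw [Finset.disjoint_left]
        intro i hi
        rw [Finset.mem_filter] at hi
        exact hi.2.1)
    refine ⟨_, Finset.mem_image_of_mem _ (Finset.mem_filter.mpr ⟨Finset.mem_univ _, hS⟩), ?_⟩
    intro i hi
    have hiT : i ∉ T := fun h => hi (hT h)
    cases hz : z i <;> simp [hi, hiT, hz]
  have h1 := f_le hm
  have h2 := Finset.card_image_le (s := SS (n + 3) s G) (f := fun x i => decide (i ∈ x))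
  exact_mod_cast h1.trans h2

end avg

/-! ### The limit -/

lemma card_small_le (n : ℕ) :
    ((Finset.univ.filter (fun x : Finset (Fin n) => x.card < 6)).card : ℝ) ≤
      ∑ j ∈ Finset.range 6, (n : ℝ) ^ j := by
  have h1 : Finset.univ.filter (fun x : Finset (Fin n) => x.card < 6) ⊆
      (Finset.range 6).biUnion (fun j => Finset.powersetCard j (Finset.univ : Finset (Fin n))) := by
    intro x hx
    rw [Finset.mem_filter] at hx
    rw [Finset.mem_biUnion]
    exact ⟨x.card, Finset.mem_range.mpr hx.2, Finset.mem_powersetCard.mpr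
      ⟨Finset.subset_univ _, rfl⟩⟩
  have h2 := (Finset.card_le_card h1).trans Finset.card_biUnion_le
  have h3 : ∑ j ∈ Finset.range 6, (Finset.powersetCard j (Finset.univ : Finset (Fin n))).card ≤
      ∑ j ∈ Finset.range 6, n ^ j := by
    apply Finset.sum_le_sum
    intro j _
    rw [Finset.card_powersetCard, Finset.card_univ, Fintype.card_fin]
    exact Nat.choose_le_pow n j
  exact_mod_cast h2.trans h3

/-- the limit defining `a_5` exists and is at most `163 / 1000` -/
theorem main : ∃ a : ℝ, Tendsto (fun n : ℕ => (f 5 n : ℝ) / 2 ^ n) atTop (𝓝 a) ∧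
    a ≤ 163 / 1000 ∧ ∀ n : ℕ, (f 5 n : ℝ) ≤ a * 2 ^ n := by
  let _ : Fintype (GaloisField 2 2) := Fintype.ofFinite _
  have hF : Fintype.card (GaloisField 2 2) = 4 := by
    rw [← Nat.card_eq_fintype_card, GaloisField.card 2 2 (by norm_num)]
    norm_num
  have hbdd : BddAbove (Set.range (fun n : ℕ => (f 5 n : ℝ) / 2 ^ n)) := by
    refine ⟨1, ?_⟩
    rintro _ ⟨n, rfl⟩
    exact ratio_le_one 5 n
  have hlim := tendsto_atTop_ciSup (ratio_mono 5) hbdd
  refine ⟨_, hlim, ?_, fun n => ?_⟩
  swap
  · have h3 : (0 : ℝ) < 2 ^ n := by positivity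
    rw [← div_le_iff₀ h3]
    exact le_ciSup hbdd n
  have hz : Tendsto (fun n : ℕ => 163 / 1000 + ∑ j ∈ Finset.range 6, (n : ℝ) ^ j / 2 ^ n) atTop
      (𝓝 (163 / 1000 + ∑ j ∈ Finset.range 6, (0 : ℝ))) := by
    refine tendsto_const_nhds.add (tendsto_finsetSum _ (fun j _ => ?_))
    exact tendsto_pow_const_div_const_pow_of_one_lt j (by norm_num)
  rw [Finset.sum_const_zero, add_zero] at hz
  refine le_of_tendsto_of_tendsto' hlim hz (fun n => ?_)
  have h1 := f_five_le (F := GaloisField 2 2) hF n
  have h2 := card_small_le n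
  have h3 : (0 : ℝ) < 2 ^ n := by positivity
  rw [div_le_iff₀ h3, add_mul, Finset.sum_mul]
  have h4 : ∑ j ∈ Finset.range 6, (n : ℝ) ^ j / 2 ^ n * 2 ^ n =
      ∑ j ∈ Finset.range 6, (n : ℝ) ^ j :=
    Finset.sum_congr rfl (fun j _ => by field_simp)
  rw [h4]
  linarith

end Pool.Agent.Lib.MP_de7d88_co
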