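import Mathlib
import Pool.Agent.Lib.MP_de7d88_co.ExpHit
import Pool.Agent.Lib.MP_de7d88_co.Proof

/-!
First moment computation for the exponential upper bound, and the limit statement.
-/

namespace Pool.Agent.Lib.MP_de7d88_co

open Module Matrix Filter Topology

section count

variable {F : Type*} [Field F] [Fintype F] [DecidableEq F] {n : ℕ}

lemma card_row {v : Fin n → F} (hv : v ≠ 0) (c : F) :
    ((Finset.univ.filter (fun r : Fin n → F => r ⬝ᵥ v = c)).card : ℝ) =
      (Fintype.card F : ℝ) ^ n * (Fintype.card F : ℝ)⁻¹ := by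
  obtain ⟨i, hi⟩ : ∃ i, v i ≠ 0 := by
    by_contra hcon
    push Not at hcon
    exact hv (funext hcon)
  set r0 : Fin n → F := Pi.single i (v i)⁻¹ with hr0
  have h0 : r0 ⬝ᵥ v = 1 := by
    rw [hr0, single_dotProduct, inv_mul_cancel₀ hi]
  have h1 : ∀ c : F, (Finset.univ.filter (fun r : Fin n → F => r ⬝ᵥ v = c)).card =
      (Finset.univ.filter (fun r : Fin n → F => r ⬝ᵥ v = 0)).card := by
    intro c
    apply Finset.card_bij (fun r _ => r - c • r0)
    · intro r hr
      rw [Finset.mem_filter] at hr ⊢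
      refine ⟨Finset.mem_univ _, ?_⟩
      rw [sub_dotProduct, smul_dotProduct, h0, hr.2]
      simp
    · intro r _ r' _ h
      exact sub_left_injective h
    · intro r hr
      rw [Finset.mem_filter] at hr
      refine ⟨r + c • r0, ?_, by simp⟩
      rw [Finset.mem_filter]
      refine ⟨Finset.mem_univ _, ?_⟩
      rw [add_dotProduct, smul_dotProduct, h0, hr.2]
      simp
  have h2 : (Finset.univ : Finset (Fin n → F)).card =
      ∑ c : F, (Finset.univ.filter (fun r : Fin n → F => r ⬝ᵥ v = c)).card :=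
    Finset.card_eq_sum_card_fiberwise (fun r _ => Finset.mem_univ _)
  rw [Finset.sum_congr rfl (fun c _ => h1 c), Finset.sum_const, Finset.card_univ,
    Finset.card_univ, Fintype.card_fun, Fintype.card_fin, smul_eq_mul] at h2
  rw [h1 c]
  have h3 : (Fintype.card F : ℝ) ≠ 0 := by exact_mod_cast Fintype.card_ne_zero
  have h4 : ((Fintype.card F : ℝ)) ^ n = (Fintype.card F : ℝ) *
      ((Finset.univ.filter (fun r : Fin n → F => r ⬝ᵥ v = 0)).card : ℝ) := by
    exact_mod_cast h2
  rw [h4]
  field_simp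

lemma card_constrained {N : ℕ} {v : Fin n → F} (hv : v ≠ 0) (C : Fin N → Option F) :
    ((Finset.univ.filter (fun G : Fin N → Fin n → F => ∀ k, ∀ c ∈ C k, G k ⬝ᵥ v = c)).card : ℝ) =
      ((Fintype.card F : ℝ) ^ n) ^ N *
        ((Fintype.card F : ℝ)⁻¹) ^ (Finset.univ.filter (fun k => (C k).isSome = true)).card := by
  classical
  have h1 : Finset.univ.filter (fun G : Fin N → Fin n → F => ∀ k, ∀ c ∈ C k, G k ⬝ᵥ v = c) =
      Fintype.piFinset (fun k => Finset.univ.filter (fun r : Fin n → F =>
        ∀ c ∈ C k, r ⬝ᵥ v = c)) := by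
    ext G
    simp [Fintype.mem_piFinset]
  rw [h1, Fintype.card_piFinset]
  push_cast
  have h2 : ∀ k : Fin N, ((Finset.univ.filter (fun r : Fin n → F =>
        ∀ c ∈ C k, r ⬝ᵥ v = c)).card : ℝ) = (Fintype.card F : ℝ) ^ n *
          (if (C k).isSome = true then (Fintype.card F : ℝ)⁻¹ else 1) := by
    intro k
    cases hk : C k with
    | none =>
      have : Finset.univ.filter (fun r : Fin n → F => ∀ c ∈ (none : Option F), r ⬝ᵥ v = c) =
          Finset.univ := by
        apply Finset.filter_true_of_mem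
        intro r _ c hc
        exact absurd hc (by simp)
      rw [this, Finset.card_univ, Fintype.card_fun, Fintype.card_fin]
      simp
    | some c =>
      have : Finset.univ.filter (fun r : Fin n → F => ∀ c' ∈ some c, r ⬝ᵥ v = c') =
          Finset.univ.filter (fun r : Fin n → F => r ⬝ᵥ v = c) := by
        apply Finset.filter_congr
        intro r _
        simp
      rw [this, card_row hv c]
      simp
  rw [Finset.prod_congr rfl (fun k _ => h2 k), Finset.prod_mul_distrib, Finset.prod_const,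
    Finset.card_univ, Fintype.card_fin, Finset.prod_ite, Finset.prod_const, Finset.prod_const,
    one_pow, mul_one]

/-- nonzero vectors supported on `x` -/
noncomputable def VX (F : Type*) [Field F] [Fintype F] [DecidableEq F] {n : ℕ}
    (x : Finset (Fin n)) : Finset (Fin n → F) :=
  (Fintype.piFinset (fun i => if i ∈ x then Finset.univ else {0})).erase 0

lemma mem_VX {x : Finset (Fin n)} {v : Fin n → F} : v ∈ VX F x ↔ v ≠ 0 ∧ Supp x v := by
  rw [VX, Finset.mem_erase, Fintype.mem_piFinset]
  apply and_congr_right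
  intro _
  constructor
  · intro h i hi
    have := h i
    rw [if_neg hi, Finset.mem_singleton] at this
    exact this
  · intro h i
    by_cases hi : i ∈ x
    · rw [if_pos hi]; exact Finset.mem_univ _
    · rw [if_neg hi, Finset.mem_singleton]; exact h i hi

lemma card_VX (x : Finset (Fin n)) : ((VX F x).card : ℝ) ≤ (Fintype.card F : ℝ) ^ x.card := by
  have h1 : (VX F x).card ≤ Fintype.card F ^ x.card := by
    rw [VX]
    refine (Finset.card_erase_le).trans ?_
    rw [Fintype.card_piFinset]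
    have : ∀ i : Fin n, (if i ∈ x then (Finset.univ : Finset F) else {0}).card =
        if i ∈ x then Fintype.card F else 1 := by
      intro i
      split_ifs
      · rw [Finset.card_univ]
      · rw [Finset.card_singleton]
    rw [Finset.prod_congr rfl (fun i _ => this i), Finset.prod_ite, Finset.prod_const,
      Finset.prod_const, one_pow, mul_one]
    simp
  exact_mod_cast h1

lemma card_lt {N m : ℕ} (hm : m ≤ N) :
    (Finset.univ.filter (fun k : Fin N => k.val < m)).card = m := card_rows hm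

omit [DecidableEq F] in
lemma qpos : (1 : ℝ) < (Fintype.card F : ℝ) := by
  exact_mod_cast Fintype.one_lt_card

open Classical in
lemma card_sing {N : ℕ} (x : Finset (Fin n)) (hN : x.card ≤ N) :
    ((Finset.univ.filter (fun G : Fin N → Fin n → F => ¬ NS (rowN G) x)).card : ℝ) *
      ((Fintype.card F : ℝ) - 1) ≤ ((Fintype.card F : ℝ) ^ n) ^ N := by
  set q : ℝ := (Fintype.card F : ℝ) with hq
  have hq1 : 1 < q := qpos
  set R : (Fin N → Fin n → F) → (Fin n → F) → Prop := fun G v =>
    ∀ k, k < x.card → rowN G k ⬝ᵥ v = 0 with hR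
  set sing := Finset.univ.filter (fun G : Fin N → Fin n → F => ¬ NS (rowN G) x) with hs
  have h1 : ∀ G ∈ sing, (q - 1) ≤ (((VX F x).filter (fun v => R G v)).card : ℝ) := by
    intro G hG
    rw [hs, Finset.mem_filter] at hG
    have hG2 := hG.2
    rw [NS] at hG2
    push Not at hG2
    obtain ⟨v, hv1, hv2, hv3⟩ := hG2
    have h2 : (Finset.univ.erase (0 : F)).image (fun c => c • v) ⊆
        (VX F x).filter (fun v => R G v) := by
      intro w hw
      rw [Finset.mem_image] at hw
      obtain ⟨c, hc, rfl⟩ := hw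
      rw [Finset.mem_erase] at hc
      rw [Finset.mem_filter, mem_VX]
      refine ⟨⟨smul_ne_zero hc.1 hv3, fun i hi => by simp [hv1 i hi]⟩, ?_⟩
      intro k hk
      rw [dotProduct_smul, hv2 k hk, smul_zero]
    have h3 := Finset.card_le_card h2
    rw [Finset.card_image_of_injective _ (smul_left_injective F hv3),
      Finset.card_erase_of_mem (Finset.mem_univ _), Finset.card_univ] at h3
    have h4 : Fintype.card F ≤ ((VX F x).filter (fun v => R G v)).card + 1 := by omega
    have h5 : q ≤ (((VX F x).filter (fun v => R G v)).card : ℝ) + 1 := by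
      rw [hq]; exact_mod_cast h4
    linarith
  have h6 : (sing.card : ℝ) * (q - 1) ≤
      ∑ G : Fin N → Fin n → F, (((VX F x).filter (fun v => R G v)).card : ℝ) := by
    rw [← nsmul_eq_mul, ← Finset.sum_const]
    refine (Finset.sum_le_sum h1).trans ?_
    apply Finset.sum_le_sum_of_subset_of_nonneg (Finset.filter_subset _ _)
    intro G _ _
    positivity
  have h7 : ∑ G : Fin N → Fin n → F, (((VX F x).filter (fun v => R G v)).card : ℝ) =
      ∑ v ∈ VX F x, ((Finset.univ.filter (fun G : Fin N → Fin n → F => R G v)).card : ℝ) := by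
    simp only [Finset.card_filter]
    push_cast
    rw [Finset.sum_comm]
  have h8 : ∀ v ∈ VX F x,
      ((Finset.univ.filter (fun G : Fin N → Fin n → F => R G v)).card : ℝ) =
      (q ^ n) ^ N * (q⁻¹) ^ x.card := by
    intro v hv
    rw [mem_VX] at hv
    have e := card_constrained (N := N) hv.1
      (fun k => if k.val < x.card then some (0 : F) else none)
    have e1 : Finset.univ.filter (fun G : Fin N → Fin n → F => R G v) =
        Finset.univ.filter (fun G : Fin N → Fin n → F => ∀ k : Fin N,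
          ∀ c ∈ (if k.val < x.card then some (0 : F) else none), G k ⬝ᵥ v = c) := by
      apply Finset.filter_congr
      intro G _
      constructor
      · intro h k c hc
        split_ifs at hc with hk
        · have := h k.val hk
          rw [rowN_of_lt G k.2] at this
          simp only [Option.mem_def, Option.some.injEq] at hc
          rw [← hc]; exact this
        · simp at hc
      · intro h k hk
        have := h ⟨k, by omega⟩ 0 (by simp [hk])
        rw [rowN_of_lt G (by omega : k < N)]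
        exact this
    have e2 : Finset.univ.filter (fun k : Fin N =>
        (if k.val < x.card then some (0 : F) else none).isSome = true) =
        Finset.univ.filter (fun k : Fin N => k.val < x.card) := by
      apply Finset.filter_congr
      intro k _
      split_ifs with hk <;> simp [hk]
    rw [e1, e, e2, card_lt hN]
  rw [h7, Finset.sum_congr rfl h8, Finset.sum_const, nsmul_eq_mul] at h6
  refine h6.trans ?_
  have h9 := card_VX (F := F) x
  rw [← hq] at h9
  have h10 : (0 : ℝ) < q ^ x.card := by positivity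
  calc ((VX F x).card : ℝ) * ((q ^ n) ^ N * (q⁻¹) ^ x.card)
      ≤ q ^ x.card * ((q ^ n) ^ N * (q⁻¹) ^ x.card) := by
        apply mul_le_mul_of_nonneg_right h9; positivity
    _ = (q ^ n) ^ N := by
        rw [inv_pow]; field_simp

open Classical in
lemma card_hits {N h : ℕ} (Γ : Finset (Fin h → F)) (x : Finset (Fin n)) (hx : 0 < x.card)
    (hN : x.card + h ≤ N) :
    ((Finset.univ.filter (fun G : Fin N → Fin n → F => Hits Γ (rowN G) x)).card : ℝ) ≤
      ((Fintype.card F : ℝ) ^ n) ^ N * ((Γ.card : ℝ) / (Fintype.card F : ℝ) ^ h) := by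
  set q : ℝ := (Fintype.card F : ℝ) with hq
  have hq1 : 1 < q := qpos
  let C : (Fin h → F) → Fin N → Option F := fun γ k =>
    if k.val < x.card - 1 then some 0 else if k.val = x.card - 1 then some 1
    else if hk : k.val - x.card < h then some (γ ⟨k.val - x.card, hk⟩) else none
  have h1 : Finset.univ.filter (fun G : Fin N → Fin n → F => Hits Γ (rowN G) x) ⊆
      (VX F x ×ˢ Γ).biUnion (fun p => Finset.univ.filter (fun G : Fin N → Fin n → F =>
        ∀ k, ∀ c ∈ C p.2 k, G k ⬝ᵥ p.1 = c)) := by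
    intro G hG
    rw [Finset.mem_filter] at hG
    obtain ⟨v, hv1, hv2, hv3, hv4⟩ := hG.2
    rw [Finset.mem_biUnion]
    refine ⟨(v, fun j : Fin h => rowN G (x.card + j) ⬝ᵥ v), ?_, ?_⟩
    · rw [Finset.mem_product]
      refine ⟨?_, hv4⟩
      rw [mem_VX]
      refine ⟨?_, hv1⟩
      rintro rfl
      rw [dotProduct_zero] at hv3
      exact zero_ne_one hv3
    · rw [Finset.mem_filter]
      refine ⟨Finset.mem_univ _, ?_⟩
      intro k c hc
      simp only [C] at hc
      rw [← rowN_of_lt G k.2]
      split_ifs at hc with k1 k2 k3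
      · simp only [Option.mem_def, Option.some.injEq] at hc
        rw [← hc]; exact hv2 k.val k1
      · simp only [Option.mem_def, Option.some.injEq] at hc
        rw [← hc, k2]; exact hv3
      · simp only [Option.mem_def, Option.some.injEq] at hc
        rw [← hc, show x.card + (k.val - x.card) = k.val by omega]
      · simp at hc
  have h2 := (Finset.card_le_card h1).trans Finset.card_biUnion_le
  have h3 : ((Finset.univ.filter (fun G : Fin N → Fin n → F => Hits Γ (rowN G) x)).card : ℝ) ≤
      ∑ p ∈ VX F x ×ˢ Γ, ((Finset.univ.filter (fun G : Fin N → Fin n → F =>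
        ∀ k, ∀ c ∈ C p.2 k, G k ⬝ᵥ p.1 = c)).card : ℝ) := by
    exact_mod_cast h2
  have h4 : ∀ p ∈ VX F x ×ˢ Γ, ((Finset.univ.filter (fun G : Fin N → Fin n → F =>
        ∀ k, ∀ c ∈ C p.2 k, G k ⬝ᵥ p.1 = c)).card : ℝ) =
        (q ^ n) ^ N * (q⁻¹) ^ (x.card + h) := by
    intro p hp
    rw [Finset.mem_product, mem_VX] at hp
    rw [card_constrained hp.1.1]
    have e2 : Finset.univ.filter (fun k : Fin N => (C p.2 k).isSome = true) =
        Finset.univ.filter (fun k : Fin N => k.val < x.card + h) := by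
      apply Finset.filter_congr
      intro k _
      simp only [C]
      split_ifs with k1 k2 k3
      · simp; omega
      · simp; omega
      · simp; omega
      · simp; omega
    rw [e2, card_lt hN]
  rw [Finset.sum_congr rfl h4, Finset.sum_const, nsmul_eq_mul, Finset.card_product] at h3
  refine h3.trans ?_
  have h9 := card_VX (F := F) x
  rw [← hq] at h9
  push_cast
  calc ((VX F x).card : ℝ) * (Γ.card : ℝ) * ((q ^ n) ^ N * (q⁻¹) ^ (x.card + h))
      ≤ q ^ x.card * (Γ.card : ℝ) * ((q ^ n) ^ N * (q⁻¹) ^ (x.card + h)) := by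
        apply mul_le_mul_of_nonneg_right _ (by positivity)
        apply mul_le_mul_of_nonneg_right h9 (by positivity)
    _ = (q ^ n) ^ N * ((Γ.card : ℝ) / q ^ h) := by
        rw [inv_pow, pow_add]; field_simp

/-- membership in the set of vertices -/
def InE {h : ℕ} (Γ : Finset (Fin h → F)) (r : ℕ → Fin n → F) (x : Finset (Fin n)) : Prop :=
  ¬ NS r x ∨ (0 < x.card ∧ Hits Γ r x)

open Classical in
lemma exists_smallE {h : ℕ} (Γ : Finset (Fin h → F)) (n : ℕ) :
    ∃ G : Fin (n + h) → Fin n → F,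
      ((Finset.univ.filter (fun x : Finset (Fin n) => InE Γ (rowN G) x)).card : ℝ) ≤
      (1 / ((Fintype.card F : ℝ) - 1) + (Γ.card : ℝ) / (Fintype.card F : ℝ) ^ h) * 2 ^ n := by
  set q : ℝ := (Fintype.card F : ℝ) with hq
  have hq1 : 1 < q := qpos
  by_contra hcon
  push Not at hcon
  set c : ℝ := 1 / (q - 1) + (Γ.card : ℝ) / q ^ h with hc
  set W : ℝ := (q ^ n) ^ (n + h) with hW
  have hWpos : 0 < W := by positivity
  have cardG : ((Finset.univ : Finset (Fin (n + h) → Fin n → F)).card : ℝ) = W := by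
    rw [Finset.card_univ, Fintype.card_fun, Fintype.card_fun, Fintype.card_fin,
      Fintype.card_fin]
    push_cast
    rfl
  have low : W * (c * 2 ^ n) < ∑ G : Fin (n + h) → Fin n → F,
      ((Finset.univ.filter (fun x : Finset (Fin n) => InE Γ (rowN G) x)).card : ℝ) := by
    rw [← cardG, ← nsmul_eq_mul, ← Finset.sum_const]
    apply Finset.sum_lt_sum_of_nonempty Finset.univ_nonempty
    intro G _
    exact hcon G
  have swap : ∑ G : Fin (n + h) → Fin n → F,
      ((Finset.univ.filter (fun x : Finset (Fin n) => InE Γ (rowN G) x)).card : ℝ) =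
      ∑ x : Finset (Fin n), ((Finset.univ.filter
        (fun G : Fin (n + h) → Fin n → F => InE Γ (rowN G) x)).card : ℝ) := by
    simp only [Finset.card_filter]
    push_cast
    rw [Finset.sum_comm]
  have up : ∑ x : Finset (Fin n), ((Finset.univ.filter
        (fun G : Fin (n + h) → Fin n → F => InE Γ (rowN G) x)).card : ℝ) ≤ W * (c * 2 ^ n) := by
    have h5 : ∀ x ∈ (Finset.univ : Finset (Finset (Fin n))), ((Finset.univ.filter
        (fun G : Fin (n + h) → Fin n → F => InE Γ (rowN G) x)).card : ℝ) ≤ W * c := by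
      intro x _
      have hxn : x.card ≤ n := by
        have := Finset.card_le_univ x
        rwa [Fintype.card_fin] at this
      have a1 := card_sing (F := F) (N := n + h) x (by omega)
      have a1' : ((Finset.univ.filter (fun G : Fin (n + h) → Fin n → F =>
          ¬ NS (rowN G) x)).card : ℝ) ≤ W * (1 / (q - 1)) := by
        rw [mul_one_div, le_div_iff₀ (by linarith)]
        exact a1
      have a2 : Finset.univ.filter (fun G : Fin (n + h) → Fin n → F => InE Γ (rowN G) x) ⊆
          Finset.univ.filter (fun G : Fin (n + h) → Fin n → F => ¬ NS (rowN G) x) ∪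
          Finset.univ.filter (fun G : Fin (n + h) → Fin n → F =>
            0 < x.card ∧ Hits Γ (rowN G) x) := by
        intro G hG
        rw [Finset.mem_filter] at hG
        rw [Finset.mem_union, Finset.mem_filter, Finset.mem_filter]
        rcases hG.2 with h' | h'
        · exact Or.inl ⟨Finset.mem_univ _, h'⟩
        · exact Or.inr ⟨Finset.mem_univ _, h'⟩
      have a3 : ((Finset.univ.filter (fun G : Fin (n + h) → Fin n → F =>
            0 < x.card ∧ Hits Γ (rowN G) x)).card : ℝ) ≤ W * ((Γ.card : ℝ) / q ^ h) := by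
        by_cases hx : 0 < x.card
        · have := card_hits (F := F) (N := n + h) Γ x hx (by omega)
          simpa only [hx, true_and] using this
        · have h0 : (0 : ℝ) ≤ W * ((Γ.card : ℝ) / q ^ h) := by positivity
          simpa only [hx, false_and, Finset.filter_false, Finset.card_empty, Nat.cast_zero]
            using h0
      have a4 := (Finset.card_le_card a2).trans (Finset.card_union_le _ _)
      have a5 : ((Finset.univ.filter (fun G : Fin (n + h) → Fin n → F =>
          InE Γ (rowN G) x)).card : ℝ) ≤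
          ((Finset.univ.filter (fun G : Fin (n + h) → Fin n → F => ¬ NS (rowN G) x)).card : ℝ) +
          ((Finset.univ.filter (fun G : Fin (n + h) → Fin n → F =>
            0 < x.card ∧ Hits Γ (rowN G) x)).card : ℝ) := by
        exact_mod_cast a4
      rw [hc, mul_add]
      linarith
    refine (Finset.sum_le_sum h5).trans (le_of_eq ?_)
    rw [Finset.sum_const, nsmul_eq_mul, Finset.card_univ, Fintype.card_finset, Fintype.card_fin]
    push_cast
    ring
  linarith [swap ▸ low]

lemma f_leE {d t h : ℕ} (ht : 1 ≤ t) (hth : t + h = d) (Γ : Finset (Fin h → F))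
    (hG : Good F d t h Γ) (n : ℕ) :
    (f d n : ℝ) ≤
      (1 / ((Fintype.card F : ℝ) - 1) + (Γ.card : ℝ) / (Fintype.card F : ℝ) ^ h) * 2 ^ n := by
  classical
  obtain ⟨G, hS⟩ := exists_smallE (F := F) Γ n
  refine le_trans ?_ hS
  have hm : MeetsSubcubes d n ((Finset.univ.filter (fun x : Finset (Fin n) =>
      InE Γ (rowN G) x)).image (fun x i => decide (i ∈ x))) := by
    intro D hD z
    set A := Finset.univ.filter (fun i => i ∉ D ∧ z i = true) with hA
    have hAD : Disjoint A D := by
      rw [Finset.disjoint_left]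
      intro i hi
      rw [hA, Finset.mem_filter] at hi
      exact hi.2.1
    have hex : ∃ T ⊆ D, InE Γ (rowN G) (A ∪ T) := by
      by_cases hns : ∀ T ⊆ D, NS (rowN G) (A ∪ T)
      · obtain ⟨T, hT, h1, h2⟩ := transfer ht (by omega) hG (rowN G) A D hD hAD hns
        exact ⟨T, hT, Or.inr ⟨h1, h2⟩⟩
      · push Not at hns
        obtain ⟨T, hT, h1⟩ := hns
        exact ⟨T, hT, Or.inl h1⟩
    obtain ⟨T, hT, hin⟩ := hex
    refine ⟨_, Finset.mem_image_of_mem _ (Finset.mem_filter.mpr ⟨Finset.mem_univ _, hin⟩), ?_⟩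
    intro i hi
    have hiT : i ∉ T := fun h => hi (hT h)
    cases hz : z i <;> simp [hA, hi, hiT, hz]
  have h1 := f_le hm
  have h2 := Finset.card_image_le (s := Finset.univ.filter (fun x : Finset (Fin n) =>
      InE Γ (rowN G) x)) (f := fun x i => decide (i ∈ x))
  exact_mod_cast h1.trans h2

end count

/-! ### Choice of the parameters -/

lemma choose_middle (d : ℕ) : 2 ^ d ≤ (d + 1) * d.choose (d / 2) := by
  rw [← Nat.sum_range_choose d]
  calc ∑ m ∈ Finset.range (d + 1), d.choose m
      ≤ ∑ _m ∈ Finset.range (d + 1), d.choose (d / 2) :=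
        Finset.sum_le_sum (fun m _ => Nat.choose_le_middle m d)
    _ = (d + 1) * d.choose (d / 2) := by
        rw [Finset.sum_const, Finset.card_range, smul_eq_mul]

theorem exp_bound_aux (d : ℕ) (hd : 2 ≤ d) (n : ℕ) :
    (f d n : ℝ) ≤ ((d : ℝ) + 1) ^ 4 / 2 ^ d * 2 ^ n := by
  classical
  let _ : Fintype (GaloisField 2 d) := Fintype.ofFinite _
  have hF : Fintype.card (GaloisField 2 d) = 2 ^ d := by
    rw [← Nat.card_eq_fintype_card, GaloisField.card 2 d (by omega)]
  obtain ⟨h, hh⟩ : ∃ h, h = d / 2 := ⟨_, rfl⟩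
  obtain ⟨t, ht⟩ : ∃ t, t = d - d / 2 := ⟨_, rfl⟩
  have hth : t + h = d := by omega
  have ht1 : 1 ≤ t := by omega
  have hh1 : 1 ≤ h := by omega
  have hs : d.choose t = d.choose (d / 2) := by
    rw [ht]; exact Nat.choose_symm (by omega)
  set s : ℕ := d.choose t with hsdef
  have hs1 : 2 ^ d ≤ (d + 1) * s := by rw [hs]; exact choose_middle d
  have hspos : 0 < s := by
    rw [hsdef]; exact Nat.choose_pos (by omega)
  have hQ : 2 ^ d ≤ (2 ^ d) ^ h := Nat.le_self_pow (by omega) _
  have hsQ : s ≤ (2 ^ d) ^ h := by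
    refine le_trans ?_ hQ
    rw [← Nat.sum_range_choose d, hsdef]
    exact Finset.single_le_sum (f := fun m => d.choose m) (fun _ _ => Nat.zero_le _)
      (Finset.mem_range.mpr (by omega))
  set Q : ℕ := (2 ^ d) ^ h with hQdef
  have hQpos : 0 < Q := by positivity
  set m : ℕ := ⌈(Q : ℝ) * (d : ℝ) ^ 3 / s⌉₊ with hm
  have hm1 : (Q : ℝ) * (d : ℝ) ^ 3 / s ≤ m := Nat.le_ceil _
  have hm2 : (m : ℝ) < (Q : ℝ) * (d : ℝ) ^ 3 / s + 1 := Nat.ceil_lt_add_one (by positivity)
  have hsR : (0 : ℝ) < s := by exact_mod_cast hspos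
  have hQR : (0 : ℝ) < Q := by exact_mod_cast hQpos
  have hdR : (2 : ℝ) ≤ d := by exact_mod_cast hd
  have hcond : (2 ^ d) ^ (d * d) * (Q - s) ^ m < Q ^ m := by
    have hreal : ((2 : ℝ) ^ d) ^ (d * d) * ((Q : ℝ) - s) ^ m < (Q : ℝ) ^ m := by
      have e1 : ((Q : ℝ) - s) = Q * (1 - s / Q) := by field_simp
      have e2 : 0 ≤ 1 - (s : ℝ) / Q := by
        rw [sub_nonneg, div_le_one hQR]; exact_mod_cast hsQ
      have e3 : (1 - (s : ℝ) / Q) ^ m ≤ Real.exp (-(d : ℝ) ^ 3) := by
        have a1 : 1 - (s : ℝ) / Q ≤ Real.exp (-((s : ℝ) / Q)) := by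
          have := Real.add_one_le_exp (-((s : ℝ) / Q))
          linarith
        refine (pow_le_pow_left₀ e2 a1 m).trans ?_
        rw [← Real.exp_nat_mul, Real.exp_le_exp]
        have a2 : (d : ℝ) ^ 3 ≤ m * ((s : ℝ) / Q) := by
          have := mul_le_mul_of_nonneg_right hm1 (show 0 ≤ (s : ℝ) / Q by positivity)
          refine le_trans (le_of_eq ?_) this
          field_simp
        linarith
      have e4 : ((2 : ℝ) ^ d) ^ (d * d) < Real.exp ((d : ℝ) ^ 3) := by
        have b1 : ((2 : ℝ) ^ d) ^ (d * d) = 2 ^ (d ^ 3) := by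
          rw [← pow_mul]; congr 1; ring
        have b2 : Real.exp ((d : ℝ) ^ 3) = (Real.exp 1) ^ (d ^ 3) := by
          rw [← Real.exp_nat_mul]; congr 1; push_cast; ring
        rw [b1, b2]
        apply pow_lt_pow_left₀ _ (by norm_num) (by positivity)
        have := Real.exp_one_gt_d9
        linarith
      rw [e1, mul_pow]
      have e5 : 0 ≤ (1 - (s : ℝ) / Q) ^ m := by positivity
      have e6 : ((2 : ℝ) ^ d) ^ (d * d) * (1 - (s : ℝ) / Q) ^ m < 1 := by
        calc ((2 : ℝ) ^ d) ^ (d * d) * (1 - (s : ℝ) / Q) ^ m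
            ≤ ((2 : ℝ) ^ d) ^ (d * d) * Real.exp (-(d : ℝ) ^ 3) :=
              mul_le_mul_of_nonneg_left e3 (by positivity)
          _ < Real.exp ((d : ℝ) ^ 3) * Real.exp (-(d : ℝ) ^ 3) :=
              mul_lt_mul_of_pos_right e4 (Real.exp_pos _)
          _ = 1 := by rw [← Real.exp_add]; simp
      have e7 : (0 : ℝ) < (Q : ℝ) ^ m := by positivity
      nlinarith
    have hcast : (((2 ^ d) ^ (d * d) * (Q - s) ^ m : ℕ) : ℝ) < ((Q ^ m : ℕ) : ℝ) := by
      push_cast [Nat.cast_sub hsQ]
      exact hreal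
    exact_mod_cast hcast
  obtain ⟨Γ, hΓ, hgood⟩ := exists_good (F := GaloisField 2 d) ht1 hth m (by rw [hF]; exact hcond)
  have h1 := f_leE (F := GaloisField 2 d) ht1 hth Γ hgood n
  refine h1.trans ?_
  apply mul_le_mul_of_nonneg_right _ (by positivity)
  rw [hF]
  have p1 : (0 : ℝ) < 2 ^ d := by positivity
  have p2 : (4 : ℝ) ≤ 2 ^ d := by
    calc (4 : ℝ) = 2 ^ 2 := by norm_num
      _ ≤ 2 ^ d := pow_le_pow_right₀ (by norm_num) hd
  have r1 : 1 / ((((2 ^ d : ℕ)) : ℝ) - 1) ≤ 2 / 2 ^ d := by
    push_cast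
    rw [div_le_div_iff₀ (by linarith) p1]
    linarith
  have r2 : (Γ.card : ℝ) / (((2 ^ d : ℕ)) : ℝ) ^ h ≤ ((d : ℝ) ^ 3 * (d + 1) + 1) / 2 ^ d := by
    have c1 : ((((2 ^ d : ℕ)) : ℝ) ^ h) = (Q : ℝ) := by rw [hQdef]; push_cast; ring
    rw [c1]
    have c2 : (Γ.card : ℝ) ≤ m := by exact_mod_cast hΓ
    have c3 : (2 : ℝ) ^ d ≤ Q := by exact_mod_cast hQ
    have c4 : (2 : ℝ) ^ d ≤ (d + 1) * s := by exact_mod_cast hs1
    calc (Γ.card : ℝ) / Q ≤ ((Q : ℝ) * (d : ℝ) ^ 3 / s + 1) / Q := by
          apply div_le_div_of_nonneg_right _ hQR.le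
          linarith
      _ = (d : ℝ) ^ 3 / s + 1 / Q := by field_simp
      _ ≤ (d : ℝ) ^ 3 * (d + 1) / 2 ^ d + 1 / 2 ^ d := by
          apply add_le_add
          · rw [div_le_div_iff₀ hsR p1]
            have : 0 ≤ (d : ℝ) ^ 3 := by positivity
            nlinarith
          · exact one_div_le_one_div_of_le p1 c3
      _ = ((d : ℝ) ^ 3 * (d + 1) + 1) / 2 ^ d := by ring
  refine (add_le_add r1 r2).trans ?_
  rw [← add_div]
  apply div_le_div_of_nonneg_right _ p1.le
  nlinarith [sq_nonneg (d : ℝ), hdR]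

/-- `f_d(n) ≤ (d + 1) ^ 4 / 2 ^ d * 2 ^ n` for all `d` and `n` -/
theorem exp_bound (d n : ℕ) : (f d n : ℝ) ≤ ((d : ℝ) + 1) ^ 4 / 2 ^ d * 2 ^ n := by
  by_cases hd : 2 ≤ d
  · exact exp_bound_aux d hd n
  · have h1 := ratio_le_one d n
    rw [div_le_one (by positivity)] at h1
    have h2 : (1 : ℝ) ≤ ((d : ℝ) + 1) ^ 4 / 2 ^ d := by
      interval_cases d <;> norm_num
    have h3 : (0 : ℝ) < 2 ^ n := by positivity
    nlinarith

/-- a set meeting every subcube of `Q_d` itself is not empty -/
lemma one_le_f_self (d : ℕ) : 1 ≤ f d d := by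
  obtain ⟨S, hS, hc⟩ := f_spec d d
  rw [← hc]
  obtain ⟨v, hv, _⟩ := hS Finset.univ (by rw [Finset.card_univ, Fintype.card_fin])
    (fun _ => false)
  exact Finset.card_pos.mpr ⟨v, hv⟩

/-- the limit `a_d` exists for every `d` and lies between `2 ^ (-d)` and `(d + 1) ^ 4 * 2 ^ (-d)` -/
theorem two_sided : ∃ a : ℕ → ℝ, ∀ d : ℕ,
    Tendsto (fun n : ℕ => (f d n : ℝ) / 2 ^ n) atTop (𝓝 (a d)) ∧
    1 / 2 ^ d ≤ a d ∧ a d ≤ ((d : ℝ) + 1) ^ 4 / 2 ^ d := by
  refine ⟨fun d => ⨆ n, (f d n : ℝ) / 2 ^ n, fun d => ?_⟩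
  have hbdd : BddAbove (Set.range (fun n : ℕ => (f d n : ℝ) / 2 ^ n)) := by
    refine ⟨1, ?_⟩
    rintro _ ⟨n, rfl⟩
    exact ratio_le_one d n
  refine ⟨tendsto_atTop_ciSup (ratio_mono d) hbdd, ?_, ?_⟩
  · refine le_trans ?_ (le_ciSup hbdd d)
    apply div_le_div_of_nonneg_right _ (by positivity)
    exact_mod_cast one_le_f_self d
  · apply ciSup_le
    intro n
    rw [div_le_iff₀ (by positivity)]
    exact exp_bound d n

end Pool.Agent.Lib.MP_de7d88_co
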