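import Mathlib
import Pool.Agent.Lib.MP_de7d88_co.ExpCount

/-!
The exponential rate of `a_d`.
-/

namespace Pool.Agent.Lib.MP_de7d88_co

open Filter Topology

lemma rate {a : ℕ → ℝ} (h1 : ∀ d : ℕ, 1 / 2 ^ d ≤ a d)
    (h2 : ∀ d : ℕ, a d ≤ ((d : ℝ) + 1) ^ 4 / 2 ^ d) :
    Tendsto (fun d : ℕ => (a d) ^ (1 / (d : ℝ))) atTop (𝓝 (1 / 2)) := by
  have hlow : ∀ᶠ d : ℕ in atTop, (1 / 2 : ℝ) ≤ (a d) ^ (1 / (d : ℝ)) := by
    filter_upwards [eventually_ge_atTop 1] with d hd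
    have hd' : (0 : ℝ) < d := by exact_mod_cast hd
    have e : (1 / 2 : ℝ) = (1 / 2 ^ d : ℝ) ^ (1 / (d : ℝ)) := by
      rw [← one_div_pow, ← Real.rpow_natCast, ← Real.rpow_mul (by norm_num),
        mul_one_div_cancel hd'.ne', Real.rpow_one]
    rw [e]
    exact Real.rpow_le_rpow (by positivity) (h1 d) (by positivity)
  have hup : ∀ᶠ d : ℕ in atTop, (a d) ^ (1 / (d : ℝ)) ≤
      1 / 2 * ((d : ℝ) + 1) ^ ((4 : ℝ) / (1 * ((d : ℝ) + 1) + (-1))) := by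
    filter_upwards [eventually_ge_atTop 1] with d hd
    have hd' : (0 : ℝ) < d := by exact_mod_cast hd
    have ha : 0 ≤ a d := le_trans (by positivity) (h1 d)
    refine (Real.rpow_le_rpow ha (h2 d) (by positivity)).trans (le_of_eq ?_)
    rw [div_eq_mul_inv, Real.mul_rpow (by positivity) (by positivity), mul_comm]
    congr 1
    · rw [← inv_pow, ← Real.rpow_natCast, ← Real.rpow_mul (by norm_num),
        mul_one_div_cancel hd'.ne', Real.rpow_one]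
      norm_num
    · rw [← Real.rpow_natCast, ← Real.rpow_mul (by positivity)]
      congr 1
      have e3 : (1 * ((d : ℝ) + 1) + (-1)) = d := by ring
      rw [e3]
      push_cast
      ring
  have hlim : Tendsto (fun d : ℕ => 1 / 2 * ((d : ℝ) + 1) ^
      ((4 : ℝ) / (1 * ((d : ℝ) + 1) + (-1)))) atTop (𝓝 (1 / 2)) := by
    have t1 := tendsto_rpow_div_mul_add 4 1 (-1) (by norm_num)
    have t2 : Tendsto (fun d : ℕ => (d : ℝ) + 1) atTop atTop :=
      tendsto_atTop_add_const_right _ _ tendsto_natCast_atTop_atTop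
    have t3 := (t1.comp t2).const_mul (1 / 2 : ℝ)
    rw [mul_one] at t3
    exact t3
  exact tendsto_of_tendsto_of_tendsto_of_le_of_le' tendsto_const_nhds hlim hlow hup

theorem rate_main : ∃ a : ℕ → ℝ,
    (∀ d : ℕ, Tendsto (fun n : ℕ => (f d n : ℝ) / 2 ^ n) atTop (𝓝 (a d)) ∧
      1 / 2 ^ d ≤ a d ∧ a d ≤ ((d : ℝ) + 1) ^ 4 / 2 ^ d) ∧
    Tendsto (fun d : ℕ => (a d) ^ (1 / (d : ℝ))) atTop (𝓝 (1 / 2)) := by
  obtain ⟨a, ha⟩ := two_sided
  exact ⟨a, ha, rate (fun d => (ha d).2.1) (fun d => (ha d).2.2)⟩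

end Pool.Agent.Lib.MP_de7d88_co
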